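import Pool.Agent.H12R3.A.Defs

/-!
# Task A1: symmetry of the triple event (helper959)

Everything is reduced to the classes of the six end points of `e, g, h` for the connection by
edges of `F` other than `e, g, h`.
-/

namespace H12A

open H974 H12S H973N Finset

theorem fo_mono {e : Edg} {F G : Finset Edg} (h : F ⊆ G) (hF : fo e F) : fo e G :=
  Reach.mono (Finset.coe_subset.2 (Finset.erase_subset_erase e h)) hF

theorem TD_ne {e g h : Edg} {F : Finset Edg} (T : TD e g h F) : e ≠ g ∧ e ≠ h := by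
  obtain ⟨h1, h2, -, -⟩ := T
  have key : ∀ X : Finset Edg, ¬ Pf (fo e) e X := by
    rintro X ⟨k1, k2⟩
    apply k2
    unfold fo at k1 ⊢
    rwa [Finset.erase_idem, ← Finset.erase_insert_eq_erase]
  constructor
  · rintro rfl
    exact h1.elim (key _) (key _)
  · rintro rfl
    exact h2.elim (key _) (key _)

theorem TD_swap {e g h : Edg} {F : Finset Edg} (T : TD e g h F) : TD e h g F := by
  obtain ⟨h1, h2, h3, h4⟩ := T
  exact ⟨h2, h1, by rwa [Finset.insert_comm], by rwa [Finset.erase_right_comm]⟩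

namespace A1

/-- Adding one edge. -/
theorem reach_insert {k : Edg} {S : Set Edg} {u v : Vtx} :
    Reach (insert k S) u v ↔ Reach S u v ∨ (Reach S u (src k) ∧ Reach S (tgt k) v) ∨
      (Reach S u (tgt k) ∧ Reach S (src k) v) := by
  constructor
  · intro h
    induction h with
    | refl => exact Or.inl (Reach.refl _ _)
    | @tail w w' _ hs ih =>
      obtain ⟨m, hm, hc⟩ := hs
      rcases hm with rfl | hm
      · rcases hc with ⟨rfl, rfl⟩ | ⟨rfl, rfl⟩
        · rcases ih with ih | ih | ih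
          · exact Or.inr (Or.inl ⟨ih, Reach.refl _ _⟩)
          · exact Or.inr (Or.inl ⟨ih.1, Reach.refl _ _⟩)
          · exact Or.inl ih.1
        · rcases ih with ih | ih | ih
          · exact Or.inr (Or.inr ⟨ih, Reach.refl _ _⟩)
          · exact Or.inl ih.1
          · exact Or.inr (Or.inr ⟨ih.1, Reach.refl _ _⟩)
      · have hs' : Reach S w w' := Adj.reach ⟨m, hm, hc⟩
        rcases ih with ih | ih | ih
        · exact Or.inl (ih.trans hs')
        · exact Or.inr (Or.inl ⟨ih.1, ih.2.trans hs'⟩)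
        · exact Or.inr (Or.inr ⟨ih.1, ih.2.trans hs'⟩)
  · have hsub : S ⊆ insert k S := Set.subset_insert _ _
    have hk : Reach (insert k S) (src k) (tgt k) :=
      Adj.reach ⟨k, Set.mem_insert _ _, Or.inl ⟨rfl, rfl⟩⟩
    rintro (h | h | h)
    · exact h.mono hsub
    · exact (h.1.mono hsub).trans (hk.trans (h.2.mono hsub))
    · exact (h.1.mono hsub).trans (hk.symm.trans (h.2.mono hsub))

/-- The event in terms of four connections. -/
theorem TD_iff {e g h : Edg} (heg : e ≠ g) (heh : e ≠ h) (hgh : g ≠ h) {F : Finset Edg} :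
    TD e g h F ↔
      (Reach (insert g (↑F \ {e, g, h} : Set Edg)) (src e) (tgt e) ↔
        Reach (insert h (↑F \ {e, g, h} : Set Edg)) (src e) (tgt e)) ∧
      Reach (insert g (insert h (↑F \ {e, g, h} : Set Edg))) (src e) (tgt e) ∧
      ¬ Reach (↑F \ {e, g, h} : Set Edg) (src e) (tgt e) := by
  have e0 : (↑(((F.erase g).erase h).erase e) : Set Edg) = ↑F \ {e, g, h} := by
    ext x
    simp only [Finset.coe_erase, Set.mem_sdiff, Set.mem_singleton_iff, Set.mem_insert_iff,
      Finset.mem_coe]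
    tauto
  have e0' : (↑(((F.erase h).erase g).erase e) : Set Edg) = ↑F \ {e, g, h} := by
    rw [Finset.erase_right_comm (a := h) (b := g)]
    exact e0
  have e1 : (↑((insert g (F.erase h)).erase e) : Set Edg) = insert g (↑F \ {e, g, h}) := by
    ext x
    simp only [Finset.coe_erase, Finset.coe_insert, Set.mem_sdiff, Set.mem_singleton_iff,
      Set.mem_insert_iff, Finset.mem_coe]
    constructor
    · rintro ⟨h1, h2⟩
      tauto
    · rintro (rfl | h1)
      · exact ⟨Or.inl rfl, fun h => heg h.symm⟩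
      · tauto
  have e2 : (↑((insert h (F.erase g)).erase e) : Set Edg) = insert h (↑F \ {e, g, h}) := by
    ext x
    simp only [Finset.coe_erase, Finset.coe_insert, Set.mem_sdiff, Set.mem_singleton_iff,
      Set.mem_insert_iff, Finset.mem_coe]
    constructor
    · rintro ⟨h1, h2⟩
      tauto
    · rintro (rfl | h1)
      · exact ⟨Or.inl rfl, fun h => heh h.symm⟩
      · tauto
  have e3 : (↑(((insert h F).erase g).erase e) : Set Edg) = insert h (↑F \ {e, g, h}) := by
    rw [← e2, Finset.erase_insert_of_ne (Ne.symm hgh)]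
  have e4 : (↑(((insert g F).erase h).erase e) : Set Edg) = insert g (↑F \ {e, g, h}) := by
    rw [← e1, Finset.erase_insert_of_ne hgh]
  have e5 : (↑((insert g (insert h F)).erase e) : Set Edg) =
      insert g (insert h (↑F \ {e, g, h})) := by
    ext x
    simp only [Finset.coe_erase, Finset.coe_insert, Set.mem_sdiff, Set.mem_singleton_iff,
      Set.mem_insert_iff, Finset.mem_coe]
    constructor
    · rintro ⟨h1, h2⟩
      tauto
    · rintro (rfl | rfl | h1)
      · exact ⟨Or.inl rfl, fun h => heg h.symm⟩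
      · exact ⟨Or.inr (Or.inl rfl), fun h => heh h.symm⟩
      · tauto
  have e6 : (↑((insert h (insert g F)).erase e) : Set Edg) =
      insert g (insert h (↑F \ {e, g, h})) := by
    rw [Finset.insert_comm, e5]
  unfold TD SD Pf fo
  rw [e0, e0', e1, e2, e3, e4, e5, e6]
  tauto

/-- The combinatorial core: the classes of the end points `a, a'`, `b, b'`, `c, c'`. -/
theorem core {α : Type*} (a a' b b' c c' : α)
    (h1 : (a = a' ∨ (a = b ∧ b' = a') ∨ (a = b' ∧ b = a')) ↔
      (a = a' ∨ (a = c ∧ c' = a') ∨ (a = c' ∧ c = a')))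
    (h2 : (a = a' ∨ (a = c ∧ c' = a') ∨ (a = c' ∧ c = a')) ∨
      ((a = b ∨ (a = c ∧ c' = b) ∨ (a = c' ∧ c = b)) ∧
        (b' = a' ∨ (b' = c ∧ c' = a') ∨ (b' = c' ∧ c = a'))) ∨
      ((a = b' ∨ (a = c ∧ c' = b') ∨ (a = c' ∧ c = b')) ∧
        (b = a' ∨ (b = c ∧ c' = a') ∨ (b = c' ∧ c = a'))))
    (h3 : a ≠ a') :
    ((b = b' ∨ (b = c ∧ c' = b') ∨ (b = c' ∧ c = b')) ↔
      (b = b' ∨ (b = a ∧ a' = b') ∨ (b = a' ∧ a = b'))) ∧
    ((b = b' ∨ (b = a ∧ a' = b') ∨ (b = a' ∧ a = b')) ∨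
      ((b = c ∨ (b = a ∧ a' = c) ∨ (b = a' ∧ a = c)) ∧
        (c' = b' ∨ (c' = a ∧ a' = b') ∨ (c' = a' ∧ a = b'))) ∨
      ((b = c' ∨ (b = a ∧ a' = c') ∨ (b = a' ∧ a = c')) ∧
        (c = b' ∨ (c = a ∧ a' = b') ∨ (c = a' ∧ a = b')))) ∧
    b ≠ b' ∧ (a = b ∨ a = b' ∨ a' = b ∨ a' = b') := by
  grind

/-- Connection by `S` as an equivalence relation. -/
def st (S : Set Edg) : Setoid Vtx where
  r := Reach S
  iseqv := ⟨Reach.refl S, Reach.symm, Reach.trans⟩

theorem mk_eq {S : Set Edg} {u v : Vtx} :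
    (Quotient.mk (st S) u = Quotient.mk (st S) v) ↔ Reach S u v := Quotient.eq

/-- Rotation and connection at once. -/
theorem main {e g h : Edg} (hgh : g ≠ h) {F : Finset Edg} (T : TD e g h F) :
    TD g h e F ∧ ∃ x ∈ ({src e, tgt e} : Set Vtx), ∃ y ∈ ({src g, tgt g} : Set Vtx),
      Reach (↑F \ {e, g, h} : Set Edg) x y := by
  obtain ⟨heg, heh⟩ := TD_ne T
  have hS : (↑F \ {g, h, e} : Set Edg) = ↑F \ {e, g, h} := by
    ext x
    simp only [Set.mem_sdiff, Set.mem_insert_iff, Set.mem_singleton_iff]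
    tauto
  have hT := (TD_iff heg heh hgh).1 T
  rw [TD_iff hgh heg.symm heh.symm, hS]
  generalize (↑F \ {e, g, h} : Set Edg) = S at hT ⊢
  obtain ⟨h1, h2, h3⟩ := hT
  simp only [reach_insert, ← mk_eq (S := S)] at h1 h2 h3 ⊢
  obtain ⟨k1, k2, k3, k4⟩ := core _ _ _ _ _ _ h1 h2 h3
  refine ⟨⟨k1, k2, k3⟩, ?_⟩
  rcases k4 with k | k | k | k
  · exact ⟨_, Or.inl rfl, _, Or.inl rfl, k⟩
  · exact ⟨_, Or.inl rfl, _, Or.inr rfl, k⟩
  · exact ⟨_, Or.inr rfl, _, Or.inl rfl, k⟩
  · exact ⟨_, Or.inr rfl, _, Or.inr rfl, k⟩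

end A1

theorem TD_rot {e g h : Edg} (hgh : g ≠ h) {F : Finset Edg} (T : TD e g h F) : TD g h e F :=
  (A1.main hgh T).1

/-- The three edges are joined by open paths which avoid them. -/
theorem TD_conn {e g h : Edg} (hgh : g ≠ h) {F : Finset Edg} (T : TD e g h F) :
    ∃ x ∈ ({src e, tgt e} : Set Vtx), ∃ y ∈ ({src g, tgt g} : Set Vtx),
      Reach (↑F \ {e, g, h} : Set Edg) x y :=
  (A1.main hgh T).2

end H12A
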