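import Pool.Agent.H12R3.A.Defs

/-! # Task A4: sum over blocks with a local event at a distant edge -/

set_option autoImplicit false

namespace H12A

open H974 H12S H973N Finset

namespace A4T

theorem w_mem {w : Edg} {ρ : ℕ} (hρ : 1 ≤ ρ) : w ∈ blk (bp w) ρ := by
  obtain ⟨x, y, b⟩ := w
  unfold blk bp
  cases b
  · rw [mem_RE_false]
    simp only
    omega
  · rw [mem_RE_true]
    simp only
    omega

theorem Lc_local {k : ℕ} {w : Edg} {F G : Finset Edg}
    (h : ∀ g ∈ blk (bp w) (2^(k-8)), (g ∈ F ↔ g ∈ G)) : Lc k w (↑F : Set Edg) ↔ Lc k w (↑G : Set Edg) := by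
  unfold Lc
  by_cases hk : k < 8
  · simp [hk]
  · have : L4 (2^(k-8)) w (↑F : Set Edg) ↔ L4 (2^(k-8)) w (↑G : Set Edg) := by
      refine A4_congr ?_
      intro g hg _
      have := h g (by unfold blk bp; exact_mod_cast hg)
      simpa using this
    simp [hk, this]

/-- conditioning on the configuration in `B` -/
theorem cond {q : ℝ} {W B : Finset Edg} (hB : B ⊆ W) (A : Finset Edg → Prop) :
    PQ q W A = Ex (fun _ => q) B (fun ζ => PQ q (W \ B) (fun F => A (ζ ∪ F))) := by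
  have h1 : W = B ∪ (W \ B) := by rw [Finset.union_sdiff_of_subset hB]
  have hd : Disjoint B (W \ B) := Finset.disjoint_sdiff
  unfold PQ Pr
  conv_lhs => rw [h1]
  rw [Ex_union hd]

theorem Bf_iff {w : Edg} {B b ζ F : Finset Edg} (hζ : ζ ⊆ B) (hw : w ∈ B)
    (hbB : Disjoint b B) (hF : Disjoint F B) :
    Bf (fo w) b (ζ ∪ F) ↔ Bf (CO {src w} {tgt w} ↑(ζ.erase w)) b F := by
  have hwF : w ∉ F := fun h => (Finset.disjoint_left.1 hF) h hw
  have hwb : w ∉ b := fun h => (Finset.disjoint_left.1 hbB) h hw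
  have e1 : (↑((ζ ∪ F ∪ b).erase w) : Set Edg) = (↑(F ∪ b) : Set Edg) ∪ ↑(ζ.erase w) := by
    ext g
    simp only [Finset.coe_erase, Finset.coe_union, Set.mem_sdiff, Set.mem_union, Finset.mem_coe,
      Set.mem_singleton_iff]
    constructor
    · rintro ⟨(h | h) | h, h2⟩
      · exact Or.inr ⟨h, h2⟩
      · exact Or.inl (Or.inl h)
      · exact Or.inl (Or.inr h)
    · rintro ((h | h) | ⟨h, h2⟩)
      · exact ⟨Or.inl (Or.inr h), fun h' => hwF (h' ▸ h)⟩
      · exact ⟨Or.inr h, fun h' => hwb (h' ▸ h)⟩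
      · exact ⟨Or.inl (Or.inl h), h2⟩
  have e2 : (↑(((ζ ∪ F) \ b).erase w) : Set Edg) = (↑(F \ b) : Set Edg) ∪ ↑(ζ.erase w) := by
    ext g
    simp only [Finset.coe_erase, Finset.coe_union, Finset.coe_sdiff, Set.mem_sdiff, Set.mem_union,
      Finset.mem_coe, Set.mem_singleton_iff]
    constructor
    · rintro ⟨⟨h | h, h3⟩, h2⟩
      · exact Or.inr ⟨h, h2⟩
      · exact Or.inl ⟨h, h3⟩
    · rintro (⟨h, h3⟩ | ⟨h, h2⟩)
      · exact ⟨⟨Or.inr h, h3⟩, fun h' => hwF (h' ▸ h)⟩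
      · exact ⟨⟨Or.inl h, fun h' => (Finset.disjoint_left.1 hbB) h' (hζ h)⟩, h2⟩
  unfold Bf fo CO Cn
  rw [e1, e2]
  simp

theorem pr_Lc' {q : ℝ} (h0 : 0 ≤ q) (h1 : q ≤ 1) {k : ℕ} {e : Edg} :
    PQ q (blk (bp e) (2^(k-8))) (fun F => Lc k e ↑F) ≤ al q k := by
  have hok : Ok (fun _ : Edg => q) := fun _ => ⟨h0, h1⟩
  unfold al
  split_ifs with hk
  · exact (Pr_le_one hok _ _).trans (by norm_num)
  · refine le_trans ?_ (pr_L4 (e := e) h0 h1 (Finset.Subset.refl _))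
    refine Pr_mono hok ?_
    intro F _ hF
    rcases hF with hF | hF
    · exact absurd hF hk
    · exact hF

end A4T

open A4T in
theorem cond_tile {q κ : ℝ} {n : ℕ} (h : Win q κ n) {W : Finset Edg} {w : Edg} {k l : ℕ}
    (hkl : k + 6 ≤ l) (hn : 8 * 2^k ≤ n) (hw : blk (bp w) (2^(l-8)) ⊆ W) (T : Finset (ℤ × ℤ))
    (hT : ∀ t ∈ T, blk (((2^k : ℕ) : ℤ) * t.1, ((2^k : ℕ) : ℤ) * t.2) (12 * 2^k) ⊆ W)
    (hd : ∀ t ∈ T, (2:ℤ)^l ≤ max |w.1 - (2:ℤ)^k * t.1| |w.2.1 - (2:ℤ)^k * t.2| + (2:ℤ)^k) :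
    ∑ t ∈ T, PQ q W (fun F => Lc l w ↑F ∧
      Bf (fo w) (blk (((2^k : ℕ) : ℤ) * t.1, ((2^k : ℕ) : ℤ) * t.2) (4 * 2^k)) F) ≤
      1250 * κ⁻¹ ^ 4 * al q l * Real.sqrt T.card := by
  classical
  have hok : Ok (fun _ : Edg => q) := h.ok
  set B : Finset Edg := blk (bp w) (2^(l-8)) with hB
  set S : Finset Edg := W \ B with hS
  have hρ : 1 ≤ 2^(l-8) := Nat.one_le_two_pow
  have hwB : w ∈ B := w_mem hρ
  -- sizes
  have hk1 : (1:ℤ) ≤ (2:ℤ)^k := one_le_pow₀ (by norm_num)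
  have hl1 : (64:ℤ) * (2:ℤ)^k ≤ (2:ℤ)^l := by
    have : (2:ℤ)^(k+6) ≤ (2:ℤ)^l := pow_le_pow_right₀ (by norm_num) hkl
    rw [pow_add] at this
    linarith
  have hl2 : (((2^(l-8) : ℕ)) : ℤ) * 16 ≤ (2:ℤ)^l := by
    push_cast
    by_cases h8 : 8 ≤ l
    · have : (2:ℤ)^l = (2:ℤ)^(l-8) * 256 := by
        rw [show (256:ℤ) = 2^8 by norm_num, ← pow_add, Nat.sub_add_cancel h8]
      have hp : (0:ℤ) ≤ (2:ℤ)^(l-8) := by positivity
      rw [this]; linarith
    · have : l - 8 = 0 := by omega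
      rw [this]; linarith
  have hsep : ∀ t ∈ T, (13:ℤ) * (2:ℤ)^k + ((2^(l-8) : ℕ) : ℤ) + 2 ≤
      max |w.1 - (2:ℤ)^k * t.1| |w.2.1 - (2:ℤ)^k * t.2| := by
    intro t ht
    have := hd t ht
    omega
  have hdisj : ∀ t ∈ T, ∀ r : ℕ, (r : ℤ) ≤ 12 * (2:ℤ)^k →
      Disjoint (blk (((2^k : ℕ) : ℤ) * t.1, ((2^k : ℕ) : ℤ) * t.2) r) B := by
    intro t ht r hr
    rw [Finset.disjoint_left]
    intro e he1 he2
    have k1 := (BS_adj_box he1).1
    have k2 := (BS_adj_box he2).1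
    have k3 := hsep t ht
    unfold inR at k1
    unfold inR bp at k2
    push_cast at k1 k2 k3
    rw [le_max_iff, le_abs, le_abs] at k3
    generalize (2:ℤ)^k * t.1 = u1 at *
    generalize (2:ℤ)^k * t.2 = u2 at *
    generalize (2:ℤ)^k = a at *
    generalize (2:ℤ)^(l-8) = b at *
    omega
  have hterm : ∀ t ∈ T, PQ q W (fun F => Lc l w ↑F ∧
      Bf (fo w) (blk (((2^k : ℕ) : ℤ) * t.1, ((2^k : ℕ) : ℤ) * t.2) (4 * 2^k)) F) =
      Ex (fun _ => q) B (fun ζ => ind (Lc l w (↑ζ : Set Edg)) *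
        PQ q S (Bf (CO {src w} {tgt w} ↑(ζ.erase w))
          (blk (((2^k : ℕ) : ℤ) * t.1, ((2^k : ℕ) : ℤ) * t.2) (4 * 2^k)))) := by
    intro t ht
    rw [cond hw]
    apply Ex_congr
    intro ζ hζ
    unfold PQ Pr
    rw [← Ex_mul_left]
    apply Ex_congr
    intro F hF
    have hFB : Disjoint F B := by
      rw [Finset.disjoint_left]
      intro g hg hg'
      exact (Finset.mem_sdiff.1 (hF hg)).2 hg'
    rw [ind_and]
    congr 1
    · apply ind_congr
      apply Lc_local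
      intro g hg
      rw [Finset.mem_union]
      constructor
      · rintro (h' | h')
        · exact h'
        · exact absurd hg ((Finset.disjoint_left.1 hFB) h')
      · exact Or.inl
    · apply ind_congr
      apply Bf_iff hζ hwB _ hFB
      apply hdisj t ht
      push_cast
      linarith
  rw [Finset.sum_congr rfl hterm, ← Ex_sum]
  have hbig : ∀ ζ : Finset Edg, ζ ⊆ B → ∑ t ∈ T, ind (Lc l w (↑ζ : Set Edg)) *
        PQ q S (Bf (CO {src w} {tgt w} ↑(ζ.erase w))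
          (blk (((2^k : ℕ) : ℤ) * t.1, ((2^k : ℕ) : ℤ) * t.2) (4 * 2^k))) ≤
      ind (Lc l w (↑ζ : Set Edg)) * (1250 * κ⁻¹ ^ 4 * Real.sqrt T.card) := by
    intro ζ hζ
    rw [← Finset.mul_sum]
    apply mul_le_mul_of_nonneg_left _ (ind_nonneg _)
    have hO : Disjoint (↑(ζ.erase w) : Set Edg) (↑S : Set Edg) := by
      rw [Set.disjoint_left]
      intro g hg hg'
      rw [Finset.mem_coe, Finset.mem_erase] at hg
      exact (Finset.mem_sdiff.1 (Finset.mem_coe.1 hg')).2 (hζ hg.2)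
    have key := tile_sum h (S := S) (I := {src w}) (J := {tgt w}) (O := ↑(ζ.erase w)) hO
      (s := 2^k) (R := 4 * 2^k) (K := 25) Nat.one_le_two_pow
      (by have := Nat.one_le_two_pow (n := k); omega)
      (by omega) (by norm_num) (by have := Nat.one_le_two_pow (n := k); omega) T ?_ ?_
    · refine key.trans (le_of_eq ?_)
      push_cast
      ring
    · intro t ht g hg
      have e3 : 3 * (4 * 2^k) = 12 * 2^k := by ring
      rw [e3] at hg
      rw [hS, Finset.mem_sdiff]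
      refine ⟨hT t ht hg, fun hg' => ?_⟩
      exact (Finset.disjoint_left.1 (hdisj t ht (12 * 2^k) (by push_cast; linarith))) hg hg'
    · intro t ht v hv
      have k3 := hsep t ht
      have hv' : w.1 ≤ v.1 ∧ v.1 ≤ w.1 + 1 ∧ w.2.1 ≤ v.2 ∧ v.2 ≤ w.2.1 + 1 := by
        rcases hv with hv | hv
        · rw [Set.mem_singleton_iff] at hv
          subst hv
          unfold src
          simp only
          omega
        · rw [Set.mem_singleton_iff] at hv
          subst hv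
          unfold tgt
          split_ifs <;> simp only <;> omega
      have hb0 : (0:ℤ) ≤ ((2^(l-8) : ℕ) : ℤ) := by positivity
      push_cast at k3 hb0 ⊢
      rw [le_max_iff, le_abs, le_abs] at k3
      generalize (2:ℤ)^k * t.1 = u1 at *
      generalize (2:ℤ)^k * t.2 = u2 at *
      generalize (2:ℤ)^k = a at *
      generalize (2:ℤ)^(l-8) = b at *
      omega
  refine (Ex_mono hok hbig).trans ?_
  rw [Ex_mul_right]
  have hP := pr_Lc' (k := l) (e := w) h.q0 h.q1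
  have hc : 0 ≤ 1250 * κ⁻¹ ^ 4 * Real.sqrt T.card := by
    have := h.kpos
    positivity
  calc _ ≤ al q l * (1250 * κ⁻¹ ^ 4 * Real.sqrt T.card) := mul_le_mul_of_nonneg_right hP hc
    _ = _ := by ring

end H12A
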