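import Pool.Agent.H12R3.A.Defs

/-! Task A5b: comparable distances. -/

namespace H12A

open H974 H12S H973N Finset

theorem A5b_dst_comm (e g : Edg) : dst e g = dst g e := by
  unfold dst
  rw [abs_sub_comm, abs_sub_comm e.2.1]

theorem A5b_card (S : Finset Edg) (a : Edg) (j : ℕ) :
    ∑ e ∈ S, ind (dst a e < (2:ℤ)^j) ≤ 18 * (4:ℝ)^j := by
  classical
  have h1 : ∑ e ∈ S, ind (dst a e < (2:ℤ)^j) =
      ((S.filter (fun e => dst a e < (2:ℤ)^j)).card : ℝ) := by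
    rw [card_filter, Nat.cast_sum]
    refine sum_congr rfl fun e _ => ?_
    by_cases h : dst a e < (2:ℤ)^j
    · rw [ind_of h, if_pos h]; simp
    · rw [ind_not_of h, if_neg h]; simp
  have h2 : (S.filter (fun e => dst a e < (2:ℤ)^j)) ⊆
      Icc (a.1 - (2:ℤ)^j) (a.1 + (2:ℤ)^j) ×ˢ (Icc (a.2.1 - (2:ℤ)^j) (a.2.1 + (2:ℤ)^j) ×ˢ
        (univ : Finset Bool)) := by
    intro e he
    rw [mem_filter] at he
    have h3 := he.2
    unfold dst at h3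
    rw [max_lt_iff, abs_lt, abs_lt] at h3
    simp only [mem_product, mem_Icc, mem_univ, and_true]
    refine ⟨⟨?_, ?_⟩, ?_, ?_⟩ <;> linarith [h3.1.1, h3.1.2, h3.2.1, h3.2.2]
  have h3 := card_le_card h2
  rw [card_product, card_product, Int.card_Icc, Int.card_Icc, card_univ, Fintype.card_bool] at h3
  have e1 : (a.1 + (2:ℤ)^j + 1 - (a.1 - (2:ℤ)^j)).toNat = 2 * 2^j + 1 := by
    have : (a.1 + (2:ℤ)^j + 1 - (a.1 - (2:ℤ)^j)) = ((2 * 2^j + 1 : ℕ) : ℤ) := by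
      push_cast; ring
    rw [this, Int.toNat_natCast]
  have e2 : (a.2.1 + (2:ℤ)^j + 1 - (a.2.1 - (2:ℤ)^j)).toNat = 2 * 2^j + 1 := by
    have : (a.2.1 + (2:ℤ)^j + 1 - (a.2.1 - (2:ℤ)^j)) = ((2 * 2^j + 1 : ℕ) : ℤ) := by
      push_cast; ring
    rw [this, Int.toNat_natCast]
  rw [e1, e2] at h3
  have h4 : 2 * 2^j + 1 ≤ 3 * 2^j := by
    have := Nat.one_le_two_pow (n := j)
    omega
  have h5 : (2 * 2^j + 1) * ((2 * 2^j + 1) * 2) ≤ 18 * 4^j := by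
    calc (2 * 2^j + 1) * ((2 * 2^j + 1) * 2) ≤ (3 * 2^j) * ((3 * 2^j) * 2) :=
          Nat.mul_le_mul h4 (Nat.mul_le_mul_right 2 h4)
      _ = 18 * (2^j * 2^j) := by ring
      _ = 18 * 4^j := by rw [← mul_pow]; norm_num
  rw [h1]
  have h6 := h3.trans h5
  exact_mod_cast h6

theorem A5b_al_nonneg {q : ℝ} (h0 : 0 ≤ q) (h1 : q ≤ 1) (k : ℕ) : 0 ≤ al q k := by
  unfold al
  split_ifs
  · norm_num
  · unfold a4
    exact add_nonneg (Pr_nonneg (okq h0 h1) _ _) (Pr_nonneg (okq h0 h1) _ _)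

theorem A5b_blk {R1 R2 k : ℕ} (h : R1 + 2^k ≤ R2) {w : Edg} (hw : w ∈ boxE R1) :
    blk (bp w) (2^(k-8)) ⊆ boxE R2 := by
  have hk : 2^(k-8) ≤ 2^k := Nat.pow_le_pow_right (by norm_num) (Nat.sub_le k 8)
  obtain ⟨ρ, hρ⟩ : ∃ ρ, ρ = 2^(k-8) := ⟨_, rfl⟩
  rw [← hρ] at hk ⊢
  have hR : (R1 : ℤ) + ρ ≤ R2 := by
    have : R1 + ρ ≤ R2 := by omega
    exact_mod_cast this
  obtain ⟨x, y, b⟩ := w
  have hw' : -(R1:ℤ) ≤ x ∧ x ≤ R1 ∧ -(R1:ℤ) ≤ y ∧ y ≤ R1 := by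
    unfold boxE at hw
    cases b with
    | false => rw [mem_RE_false] at hw; omega
    | true => rw [mem_RE_true] at hw; omega
  rintro ⟨x', y', b'⟩ he
  unfold blk bp at he
  unfold boxE
  cases b' with
  | false =>
    rw [mem_RE_false] at he ⊢
    simp only at he
    omega
  | true =>
    rw [mem_RE_true] at he ⊢
    simp only at he
    omega

theorem sum_comp_of
    (hTD3 : ∀ {q : ℝ} (_ : 0 ≤ q) (_ : q ≤ 1) {W : Finset Edg} {e g h : Edg} (_ : g ≠ h)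
      {k : ℕ} (_ : 1 ≤ k → (2:ℤ)^k ≤ dst e g) (_ : 1 ≤ k → (2:ℤ)^k ≤ dst e h)
      (_ : 1 ≤ k → (2:ℤ)^k ≤ dst g h) (_ : blk (bp e) (2^(k-8)) ⊆ W)
      (_ : blk (bp g) (2^(k-8)) ⊆ W) (_ : blk (bp h) (2^(k-8)) ⊆ W),
      PQ q W (TD e g h) ≤ (al q k)^3) :
    ∃ C : ℝ, 0 < C ∧ ∀ q : ℝ, 0 ≤ q → q ≤ 1 → ∀ k R1 R2 : ℕ, 1 ≤ R1 →
    R1 + 2^k ≤ R2 →
    ∑ w ∈ boxE R1, ∑ u ∈ boxE R1, ∑ v ∈ (boxE R1).erase u,
      ind (dst u v < (2:ℤ)^(k+1) ∧ (1 ≤ k → (2:ℤ)^k ≤ dst u v) ∧ dst u v ≤ dst w u ∧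
        dst u v ≤ dst w v ∧ (dst w u < (2:ℤ)^(k+7) ∨ dst w v < (2:ℤ)^(k+7))) *
        PQ q (boxE R2) (TD w u v) ≤ C * ((R1:ℝ)^2 * (16:ℝ)^k * (al q k)^3) := by
  classical
  refine ⟨18 * (2 * (18 * 4^7 * (18 * 4))), by norm_num, ?_⟩
  intro q h0 h1 k R1 R2 hR1 hR
  set G := boxE R1 with hG
  obtain ⟨a, ha⟩ : ∃ a, a = (al q k)^3 := ⟨_, rfl⟩
  have ha0 : 0 ≤ a := by rw [ha]; exact pow_nonneg (A5b_al_nonneg h0 h1 k) 3
  rw [← ha]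
  have hterm : ∀ w ∈ G, ∀ u ∈ G, ∀ v ∈ G.erase u,
      ind (dst u v < (2:ℤ)^(k+1) ∧ (1 ≤ k → (2:ℤ)^k ≤ dst u v) ∧ dst u v ≤ dst w u ∧
        dst u v ≤ dst w v ∧ (dst w u < (2:ℤ)^(k+7) ∨ dst w v < (2:ℤ)^(k+7))) *
        PQ q (boxE R2) (TD w u v) ≤
      (ind (dst w u < (2:ℤ)^(k+7)) * ind (dst u v < (2:ℤ)^(k+1)) +
        ind (dst w v < (2:ℤ)^(k+7)) * ind (dst u v < (2:ℤ)^(k+1))) * a := by
    intro w hw u hu v hv
    rw [mem_erase] at hv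
    have hnn : 0 ≤ (ind (dst w u < (2:ℤ)^(k+7)) * ind (dst u v < (2:ℤ)^(k+1)) +
        ind (dst w v < (2:ℤ)^(k+7)) * ind (dst u v < (2:ℤ)^(k+1))) :=
      add_nonneg (mul_nonneg (ind_nonneg _) (ind_nonneg _))
        (mul_nonneg (ind_nonneg _) (ind_nonneg _))
    by_cases hc : (dst u v < (2:ℤ)^(k+1) ∧ (1 ≤ k → (2:ℤ)^k ≤ dst u v) ∧ dst u v ≤ dst w u ∧
        dst u v ≤ dst w v ∧ (dst w u < (2:ℤ)^(k+7) ∨ dst w v < (2:ℤ)^(k+7)))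
    · rw [ind_of hc, one_mul]
      obtain ⟨c1, c2, c3, c4, c5⟩ := hc
      have hP := hTD3 h0 h1 (W := boxE R2) (e := w) (g := u) (h := v) hv.1.symm (k := k)
        (fun hk => (c2 hk).trans c3) (fun hk => (c2 hk).trans c4) c2
        (A5b_blk hR hw) (A5b_blk hR hu) (A5b_blk hR hv.2)
      rw [← ha] at hP
      refine hP.trans ?_
      have hone : 1 ≤ (ind (dst w u < (2:ℤ)^(k+7)) * ind (dst u v < (2:ℤ)^(k+1)) +
        ind (dst w v < (2:ℤ)^(k+7)) * ind (dst u v < (2:ℤ)^(k+1))) := by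
        rw [ind_of c1, mul_one, mul_one]
        rcases c5 with c5 | c5
        · rw [ind_of c5]
          linarith [ind_nonneg (dst w v < (2:ℤ)^(k+7))]
        · rw [ind_of c5]
          linarith [ind_nonneg (dst w u < (2:ℤ)^(k+7))]
      calc a = 1 * a := (one_mul a).symm
        _ ≤ _ := mul_le_mul_of_nonneg_right hone ha0
    · rw [ind_not_of hc, zero_mul]
      exact mul_nonneg hnn ha0
  have hN : ∀ (j : ℕ) (x : Edg), ∑ e ∈ G, ind (dst x e < (2:ℤ)^j) ≤ 18 * (4:ℝ)^j :=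
    fun j x => A5b_card G x j
  have hw1 : ∀ w ∈ G, ∑ u ∈ G, ∑ v ∈ G.erase u,
      ind (dst u v < (2:ℤ)^(k+1) ∧ (1 ≤ k → (2:ℤ)^k ≤ dst u v) ∧ dst u v ≤ dst w u ∧
        dst u v ≤ dst w v ∧ (dst w u < (2:ℤ)^(k+7) ∨ dst w v < (2:ℤ)^(k+7))) *
        PQ q (boxE R2) (TD w u v) ≤ 2 * (18 * (4:ℝ)^(k+7) * (18 * (4:ℝ)^(k+1))) * a := by
    intro w hw
    calc ∑ u ∈ G, ∑ v ∈ G.erase u,
      ind (dst u v < (2:ℤ)^(k+1) ∧ (1 ≤ k → (2:ℤ)^k ≤ dst u v) ∧ dst u v ≤ dst w u ∧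
        dst u v ≤ dst w v ∧ (dst w u < (2:ℤ)^(k+7) ∨ dst w v < (2:ℤ)^(k+7))) *
        PQ q (boxE R2) (TD w u v)
        ≤ ∑ u ∈ G, ∑ v ∈ G.erase u,
          (ind (dst w u < (2:ℤ)^(k+7)) * ind (dst u v < (2:ℤ)^(k+1)) +
          ind (dst w v < (2:ℤ)^(k+7)) * ind (dst u v < (2:ℤ)^(k+1))) * a :=
          sum_le_sum fun u hu => sum_le_sum fun v hv => hterm w hw u hu v hv
      _ ≤ ∑ u ∈ G, ∑ v ∈ G,
          (ind (dst w u < (2:ℤ)^(k+7)) * ind (dst u v < (2:ℤ)^(k+1)) +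
          ind (dst w v < (2:ℤ)^(k+7)) * ind (dst u v < (2:ℤ)^(k+1))) * a :=
          sum_le_sum fun u _ => sum_le_sum_of_subset_of_nonneg (erase_subset _ _)
            fun v _ _ => mul_nonneg (add_nonneg (mul_nonneg (ind_nonneg _) (ind_nonneg _))
              (mul_nonneg (ind_nonneg _) (ind_nonneg _))) ha0
      _ = (∑ u ∈ G, ind (dst w u < (2:ℤ)^(k+7)) * ∑ v ∈ G, ind (dst u v < (2:ℤ)^(k+1)) +
          ∑ v ∈ G, ind (dst w v < (2:ℤ)^(k+7)) * ∑ u ∈ G, ind (dst v u < (2:ℤ)^(k+1))) * a := by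
          simp only [← sum_mul]
          congr 1
          simp only [sum_add_distrib, mul_sum]
          congr 1
          rw [sum_comm]
          refine sum_congr rfl fun v _ => sum_congr rfl fun u _ => ?_
          rw [A5b_dst_comm u v]
      _ ≤ (18 * (4:ℝ)^(k+7) * (18 * (4:ℝ)^(k+1)) + 18 * (4:ℝ)^(k+7) * (18 * (4:ℝ)^(k+1))) * a := by
          refine mul_le_mul_of_nonneg_right (add_le_add ?_ ?_) ha0
          · calc ∑ u ∈ G, ind (dst w u < (2:ℤ)^(k+7)) * ∑ v ∈ G, ind (dst u v < (2:ℤ)^(k+1))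
                ≤ ∑ u ∈ G, ind (dst w u < (2:ℤ)^(k+7)) * (18 * (4:ℝ)^(k+1)) :=
                  sum_le_sum fun u _ => mul_le_mul_of_nonneg_left (hN _ _) (ind_nonneg _)
              _ = (∑ u ∈ G, ind (dst w u < (2:ℤ)^(k+7))) * (18 * (4:ℝ)^(k+1)) := by
                  rw [sum_mul]
              _ ≤ _ := mul_le_mul_of_nonneg_right (hN _ _) (by positivity)
          · calc ∑ u ∈ G, ind (dst w u < (2:ℤ)^(k+7)) * ∑ v ∈ G, ind (dst u v < (2:ℤ)^(k+1))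
                ≤ ∑ u ∈ G, ind (dst w u < (2:ℤ)^(k+7)) * (18 * (4:ℝ)^(k+1)) :=
                  sum_le_sum fun u _ => mul_le_mul_of_nonneg_left (hN _ _) (ind_nonneg _)
              _ = (∑ u ∈ G, ind (dst w u < (2:ℤ)^(k+7))) * (18 * (4:ℝ)^(k+1)) := by
                  rw [sum_mul]
              _ ≤ _ := mul_le_mul_of_nonneg_right (hN _ _) (by positivity)
      _ = 2 * (18 * (4:ℝ)^(k+7) * (18 * (4:ℝ)^(k+1))) * a := by ring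
  have hGc : (G.card : ℝ) ≤ 18 * (R1:ℝ)^2 := by
    have h2 := card_boxE R1
    rw [← hG] at h2
    have h3 : 2 * R1 + 1 ≤ 3 * R1 := by omega
    have h4 : (2 * R1 + 1) * ((2 * R1 + 1) * 2) ≤ (3 * R1) * ((3 * R1) * 2) :=
      Nat.mul_le_mul h3 (Nat.mul_le_mul_right 2 h3)
    have h5 : G.card ≤ 18 * R1^2 := by
      calc G.card ≤ (3 * R1) * ((3 * R1) * 2) := h2.trans h4
        _ = 18 * R1^2 := by ring
    exact_mod_cast h5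
  calc _ ≤ ∑ w ∈ G, 2 * (18 * (4:ℝ)^(k+7) * (18 * (4:ℝ)^(k+1))) * a := sum_le_sum hw1
    _ = (G.card : ℝ) * (2 * (18 * (4:ℝ)^(k+7) * (18 * (4:ℝ)^(k+1))) * a) := by
        rw [sum_const, nsmul_eq_mul]
    _ ≤ (18 * (R1:ℝ)^2) * (2 * (18 * (4:ℝ)^(k+7) * (18 * (4:ℝ)^(k+1))) * a) :=
        mul_le_mul_of_nonneg_right hGc (by positivity)
    _ = 18 * (2 * (18 * 4^7 * (18 * 4))) * ((R1:ℝ)^2 * (16:ℝ)^k * a) := by
        have h16 : (16:ℝ)^k = (4:ℝ)^k * (4:ℝ)^k := by rw [← mul_pow]; norm_num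
        rw [h16, pow_add, pow_add]
        ring

end H12A
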