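import Pool.Agent.H12R3.A.Defs

/-! Task A5f of `h12a_tasks`: arithmetic of the three sums (by helper802). -/

namespace H12A

open H974 H12S H973N Finset

namespace A5f

theorem geom_le {y c : ℝ} (hy : c + 1 ≤ c * y) (hy0 : 0 ≤ y) (hc : 0 ≤ c) (n : ℕ) :
    ∑ k ∈ range n, y ^ k ≤ c * y ^ n := by
  induction n with
  | zero => simpa using hc
  | succ n ih =>
    rw [sum_range_succ, pow_succ]
    have h := pow_nonneg hy0 n
    nlinarith [mul_le_mul_of_nonneg_left hy h]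

theorem a4_nn {q : ℝ} (h0 : 0 ≤ q) (h1 : q ≤ 1) (m : ℕ) : 0 ≤ a4 q m := by
  unfold a4 PQ
  have hp : Ok (fun _ : Edg => q) := fun _ => ⟨h0, h1⟩
  exact add_nonneg (Pr_nonneg hp _ _) (Pr_nonneg hp _ _)

theorem al_nn {q : ℝ} (h0 : 0 ≤ q) (h1 : q ≤ 1) (k : ℕ) : 0 ≤ al q k := by
  unfold al
  split_ifs
  · norm_num
  · exact a4_nn h0 h1 _

/-- The base `2 ^ (-(5/4) + ε)`. -/
theorem base_facts {ε : ℝ} (h0 : 0 < ε) (h1 : ε ≤ 1/100) :
    0.42 ≤ (2:ℝ) ^ (-(5/4 : ℝ) + ε) ∧ (2:ℝ) ^ (-(5/4 : ℝ) + ε) ≤ 1 := by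
  constructor
  · by_contra h
    push Not at h
    have hpos : (0:ℝ) < (2:ℝ) ^ (-(5/4 : ℝ) + ε) := Real.rpow_pos_of_pos (by norm_num) _
    have h4 : ((2:ℝ) ^ (-(5/4 : ℝ) + ε)) ^ 4 < 0.42 ^ 4 :=
      pow_lt_pow_left₀ h hpos.le (by norm_num)
    have e4 : ((2:ℝ) ^ (-(5/4 : ℝ) + ε)) ^ 4 = (2:ℝ) ^ (-5 + 4 * ε) := by
      rw [← Real.rpow_natCast, ← Real.rpow_mul (by norm_num)]
      congr 1
      push_cast
      ring
    have h5 : (2:ℝ) ^ (-5 : ℝ) ≤ (2:ℝ) ^ (-5 + 4 * ε) :=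
      Real.rpow_le_rpow_of_exponent_le (by norm_num) (by linarith)
    have h6 : (2:ℝ) ^ (-5 : ℝ) = 1/32 := by
      rw [Real.rpow_neg (by norm_num)]
      norm_num
    rw [e4] at h4
    rw [h6] at h5
    norm_num at h4
    linarith
  · exact Real.rpow_le_one_of_one_le_of_nonpos (by norm_num) (by linarith)

theorem two_pow_rpow (k : ℕ) (s : ℝ) : ((2:ℝ) ^ k) ^ s = ((2:ℝ) ^ s) ^ k := by
  rw [← Real.rpow_natCast, ← Real.rpow_natCast, ← Real.rpow_mul (by norm_num),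
    ← Real.rpow_mul (by norm_num), mul_comm]

/-- Bound of `al`. -/
theorem al_le {β A q : ℝ} {K : ℕ} (hb : 0.42 ≤ β) (hA : 1 ≤ A)
    (h : ∀ j : ℕ, 2^j ≤ 2^K → a4 q (2^j) ≤ A * β ^ j) {k : ℕ} (hk : k ≤ K) :
    al q k ≤ 2048 * A * β ^ k := by
  have hb0 : (0:ℝ) ≤ β := by linarith
  unfold al
  split_ifs with h8
  · have : (0.42:ℝ) ^ 7 ≤ β ^ k :=
      calc (0.42:ℝ) ^ 7 ≤ (0.42:ℝ) ^ k :=
            pow_le_pow_of_le_one (by norm_num) (by norm_num) (by omega)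
        _ ≤ β ^ k := pow_le_pow_left₀ (by norm_num) hb k
    have h7 : (1:ℝ) / 1024 ≤ (0.42:ℝ) ^ 7 := by norm_num
    have hpos : 0 ≤ β ^ k := pow_nonneg hb0 k
    nlinarith [mul_nonneg (sub_nonneg.2 hA) hpos]
  · have hj : (2:ℕ)^(k-8) ≤ 2^K := Nat.pow_le_pow_right (by norm_num) (by omega)
    have h2 := h (k-8) hj
    have e : β ^ k = β ^ (k-8) * β ^ 8 := by
      rw [← pow_add]
      congr 1
      omega
    have h8' : (0.42:ℝ) ^ 8 ≤ β ^ 8 := pow_le_pow_left₀ (by norm_num) hb 8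
    have h9 : (1:ℝ) ≤ 2048 * β ^ 8 := by
      have : (1:ℝ) / 2048 ≤ (0.42:ℝ) ^ 8 := by norm_num
      linarith
    have hpos : 0 ≤ A * β ^ (k-8) := mul_nonneg (by linarith) (pow_nonneg hb0 _)
    calc a4 q (2^(k-8)) ≤ A * β ^ (k-8) := h2
      _ ≤ A * β ^ (k-8) * (2048 * β ^ 8) := le_mul_of_one_le_right hpos h9
      _ = 2048 * A * β ^ k := by rw [e]; ring

end A5f

open A5f

theorem TS3_bound {ε : ℝ} (h0 : 0 < ε) (h1 : ε ≤ 1/100) : ∃ C : ℝ, 0 < C ∧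
    ∀ (q A : ℝ) (K R : ℕ), 0 ≤ q → q ≤ 1 → 1 ≤ A → 2^K ≤ R →
    (∀ m : ℕ, 1 ≤ m → m ≤ 2^K → a4 q m ≤ A * (m:ℝ) ^ (-(5/4 : ℝ) + ε)) →
    TS3 q K R ≤ C * A^3 * ((R:ℝ)^6 * ((2:ℝ)^K) ^ (-(15/4 : ℝ) + 3 * ε)) := by
  obtain ⟨hb, hb1⟩ := base_facts h0 h1
  set β : ℝ := (2:ℝ) ^ (-(5/4 : ℝ) + ε) with hβ
  have hbp : (0:ℝ) < β := by linarith
  have hb0 : (0:ℝ) ≤ β := hbp.le
  refine ⟨2048^3 * ((β^18)⁻¹ + 147), by positivity, ?_⟩
  intro q A K R hq0 hq1 hA hKR ha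
  have hA0 : (0:ℝ) ≤ A := by linarith
  have hal : ∀ k, k ≤ K → al q k ≤ 2048 * A * β ^ k := by
    intro k hk
    refine al_le hb hA (K := K) ?_ hk
    intro j hj
    have h2 := ha (2^j) Nat.one_le_two_pow hj
    push_cast at h2
    rwa [two_pow_rpow] at h2
  have haln : ∀ k, 0 ≤ al q k := al_nn hq0 hq1
  have eK : ((2:ℝ)^K) ^ (-(15/4 : ℝ) + 3 * ε) = β ^ (3*K) := by
    rw [two_pow_rpow]
    have : (2:ℝ) ^ (-(15/4 : ℝ) + 3 * ε) = β ^ 3 := by
      rw [hβ, ← Real.rpow_natCast, ← Real.rpow_mul (by norm_num)]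
      congr 1
      push_cast
      ring
    rw [this, ← pow_mul]
  rw [eK]
  set D : ℝ := 2048 * A with hD
  have hD0 : 0 ≤ D := by positivity
  have hR : (2:ℝ)^K ≤ (R:ℝ) := by exact_mod_cast hKR
  have hR0 : (0:ℝ) ≤ (R:ℝ) := by positivity
  -- first term
  have T1 : (R:ℝ)^6 * (al q (K - 6))^3 ≤ (β^18)⁻¹ * D^3 * ((R:ℝ)^6 * β ^ (3*K)) := by
    have h := hal (K-6) (by omega)
    have h3 : (al q (K-6))^3 ≤ (D * β ^ (K-6))^3 := pow_le_pow_left₀ (haln _) h 3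
    have h4 : (β ^ (K-6))^3 ≤ (β^18)⁻¹ * β ^ (3*K) := by
      rw [← div_eq_inv_mul, le_div_iff₀ (by positivity), ← pow_mul, ← pow_add]
      exact pow_le_pow_of_le_one hb0 hb1 (by omega)
    calc (R:ℝ)^6 * (al q (K - 6))^3 ≤ (R:ℝ)^6 * (D * β ^ (K-6))^3 := by gcongr
      _ = (R:ℝ)^6 * (D^3 * (β ^ (K-6))^3) := by ring
      _ ≤ (R:ℝ)^6 * (D^3 * ((β^18)⁻¹ * β ^ (3*K))) := by gcongr
      _ = _ := by ring
  -- geometric sums
  have hy : ∀ n : ℕ, ∑ k ∈ range n, (8 * β^2) ^ k ≤ 3 * (8 * β^2) ^ n := by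
    intro n
    apply geom_le _ (by positivity) (by norm_num)
    nlinarith
  have hz : ∀ n : ℕ, ∑ k ∈ range n, (16 * β^3) ^ k ≤ 6 * (16 * β^3) ^ n := by
    intro n
    apply geom_le _ (by positivity) (by norm_num)
    have : (0.42:ℝ)^3 ≤ β^3 := pow_le_pow_left₀ (by norm_num) hb 3
    have h5 : (0.0735:ℝ) ≤ (0.42:ℝ)^3 := by norm_num
    nlinarith
  -- second term
  have T2 : (R:ℝ)^2 * (∑ k ∈ range K, ∑ l ∈ range K,
      if k ≤ l then (16:ℝ)^k * (al q k)^2 * al q l * (2:ℝ)^(l - k) else 0) ≤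
      144 * D^3 * ((R:ℝ)^6 * β ^ (3*K)) := by
    have s1 : (∑ k ∈ range K, ∑ l ∈ range K,
        if k ≤ l then (16:ℝ)^k * (al q k)^2 * al q l * (2:ℝ)^(l - k) else 0) ≤
        ∑ l ∈ range K, D^3 * ((2 * β)^l * ∑ k ∈ range (l+1), (8 * β^2)^k) := by
      rw [sum_comm]
      apply sum_le_sum
      intro l hl
      rw [mem_range] at hl
      have hsub : (∑ k ∈ range K,
          if k ≤ l then (16:ℝ)^k * (al q k)^2 * al q l * (2:ℝ)^(l - k) else 0) =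
          ∑ k ∈ range (l+1), (16:ℝ)^k * (al q k)^2 * al q l * (2:ℝ)^(l - k) := by
        rw [← sum_filter]
        apply sum_congr _ (fun _ _ => rfl)
        ext k
        simp only [mem_filter, mem_range]
        omega
      rw [hsub, mul_sum, mul_sum]
      apply sum_le_sum
      intro k hk
      rw [mem_range] at hk
      have hk' : k ≤ l := by omega
      have a1 : al q k ^ 2 ≤ (D * β^k)^2 := pow_le_pow_left₀ (haln _) (hal k (by omega)) 2
      have a2 := hal l (by omega)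
      have a3 : (16:ℝ)^k * (2:ℝ)^(l-k) = 8^k * 2^l := by
        have : (2:ℝ)^l = 2^k * 2^(l-k) := by rw [← pow_add]; congr 1; omega
        rw [this, show (16:ℝ) = 8 * 2 by norm_num, mul_pow]
        ring
      calc (16:ℝ)^k * (al q k)^2 * al q l * (2:ℝ)^(l - k)
          = ((16:ℝ)^k * (2:ℝ)^(l-k)) * ((al q k)^2 * al q l) := by ring
        _ ≤ ((16:ℝ)^k * (2:ℝ)^(l-k)) * ((D * β^k)^2 * (D * β^l)) := by
            apply mul_le_mul_of_nonneg_left _ (by positivity)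
            exact mul_le_mul a1 a2 (haln _) (by positivity)
        _ = D^3 * ((2*β)^l * (8 * β^2)^k) := by
            rw [a3, mul_pow 2 β, mul_pow 8 (β^2)]
            ring
    have s2 : (∑ l ∈ range K, D^3 * ((2 * β)^l * ∑ k ∈ range (l+1), (8 * β^2)^k)) ≤
        D^3 * (144 * (16 * β^3)^K) := by
      rw [← mul_sum]
      apply mul_le_mul_of_nonneg_left _ (by positivity)
      have : ∀ l ∈ range K, (2 * β)^l * ∑ k ∈ range (l+1), (8 * β^2)^k ≤
          24 * (16 * β^3)^l := by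
        intro l _
        have g := hy (l+1)
        have h8 : 8 * β^2 ≤ 8 := by nlinarith
        have g2 : 3 * (8 * β^2)^(l+1) ≤ 24 * (8 * β^2)^l := by
          rw [pow_succ]
          have := mul_le_mul_of_nonneg_left h8 (pow_nonneg (by positivity : 0 ≤ 8 * β^2) l)
          linarith
        calc (2 * β)^l * ∑ k ∈ range (l+1), (8 * β^2)^k ≤ (2 * β)^l * (24 * (8 * β^2)^l) := by
              apply mul_le_mul_of_nonneg_left (g.trans g2) (by positivity)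
          _ = 24 * ((2 * β) * (8 * β^2))^l := by rw [mul_pow (2 * β)]; ring
          _ = 24 * (16 * β^3)^l := by rw [show (2 * β) * (8 * β^2) = 16 * β^3 by ring]
      calc (∑ l ∈ range K, (2 * β)^l * ∑ k ∈ range (l+1), (8 * β^2)^k) ≤
            ∑ l ∈ range K, 24 * (16 * β^3)^l := sum_le_sum this
        _ = 24 * ∑ l ∈ range K, (16 * β^3)^l := by rw [mul_sum]
        _ ≤ 24 * (6 * (16 * β^3)^K) := by
            apply mul_le_mul_of_nonneg_left (hz K) (by norm_num)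
        _ = 144 * (16 * β^3)^K := by ring
    have s3 : (16 * β^3)^K ≤ (R:ℝ)^4 * β^(3*K) := by
      rw [mul_pow, ← pow_mul]
      apply mul_le_mul_of_nonneg_right _ (by positivity)
      calc (16:ℝ)^K = ((2:ℝ)^K)^4 := by rw [← pow_mul, mul_comm, pow_mul]; norm_num
        _ ≤ (R:ℝ)^4 := pow_le_pow_left₀ (by positivity) hR 4
    calc _ ≤ (R:ℝ)^2 * (D^3 * (144 * ((R:ℝ)^4 * β^(3*K)))) := by
          apply mul_le_mul_of_nonneg_left _ (by positivity)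
          refine (s1.trans s2).trans ?_
          gcongr
      _ = _ := by ring
  -- third term
  have T3 : (R:ℝ)^3 * (∑ k ∈ range K, (8:ℝ)^k * (al q k)^2 * al q K) ≤
      3 * D^3 * ((R:ℝ)^6 * β ^ (3*K)) := by
    have s1 : (∑ k ∈ range K, (8:ℝ)^k * (al q k)^2 * al q K) ≤
        ∑ k ∈ range K, D^3 * β^K * (8 * β^2)^k := by
      apply sum_le_sum
      intro k hk
      rw [mem_range] at hk
      have a1 : al q k ^ 2 ≤ (D * β^k)^2 := pow_le_pow_left₀ (haln _) (hal k (by omega)) 2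
      have a2 := hal K le_rfl
      calc (8:ℝ)^k * (al q k)^2 * al q K = (8:ℝ)^k * ((al q k)^2 * al q K) := by ring
        _ ≤ (8:ℝ)^k * ((D * β^k)^2 * (D * β^K)) := by
            apply mul_le_mul_of_nonneg_left _ (by positivity)
            exact mul_le_mul a1 a2 (haln _) (by positivity)
        _ = D^3 * β^K * (8 * β^2)^k := by
            rw [mul_pow 8 (β^2)]
            ring
    have s2 : (∑ k ∈ range K, D^3 * β^K * (8 * β^2)^k) ≤ D^3 * β^K * (3 * (8 * β^2)^K) := by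
      rw [← mul_sum]
      exact mul_le_mul_of_nonneg_left (hy K) (by positivity)
    have s3 : β^K * (8 * β^2)^K ≤ (R:ℝ)^3 * β^(3*K) := by
      calc β^K * (8 * β^2)^K = (8:ℝ)^K * β^(3*K) := by
            rw [mul_pow, ← pow_mul, pow_mul β 3 K, show β^3 = β * β^2 by ring, mul_pow, ← pow_mul]
            ring
        _ ≤ (R:ℝ)^3 * β^(3*K) := by
            apply mul_le_mul_of_nonneg_right _ (by positivity)
            calc (8:ℝ)^K = ((2:ℝ)^K)^3 := by rw [← pow_mul, mul_comm, pow_mul]; norm_num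
              _ ≤ (R:ℝ)^3 := pow_le_pow_left₀ (by positivity) hR 3
    calc _ ≤ (R:ℝ)^3 * (3 * D^3 * ((R:ℝ)^3 * β^(3*K))) := by
          apply mul_le_mul_of_nonneg_left _ (by positivity)
          calc _ ≤ D^3 * β^K * (3 * (8 * β^2)^K) := s1.trans s2
            _ = 3 * D^3 * (β^K * (8 * β^2)^K) := by ring
            _ ≤ _ := by gcongr
      _ = _ := by ring
  unfold TS3
  calc _ ≤ (β^18)⁻¹ * D^3 * ((R:ℝ)^6 * β ^ (3*K)) + 144 * D^3 * ((R:ℝ)^6 * β ^ (3*K)) +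
        3 * D^3 * ((R:ℝ)^6 * β ^ (3*K)) := add_le_add (add_le_add T1 T2) T3
    _ = _ := by rw [hD]; ring

end H12A
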