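import Pool.Agent.H12R3.A.Defs

/-!
Task A6 (helper479): the triple event with a distant pair of edges has an open arm.
-/

namespace H12A

open H974 H12S H973N Finset

/-- Version of `pr_TD_arm` with `TD_conn` as a hypothesis. -/
theorem pr_TD_arm_of
    (TDc : ∀ {e g h : Edg} (_ : g ≠ h) {F : Finset Edg} (_ : TD e g h F),
      ∃ x ∈ ({src e, tgt e} : Set Vtx), ∃ y ∈ ({src g, tgt g} : Set Vtx),
        Reach (↑F \ {e, g, h} : Set Edg) x y)
    {q : ℝ} (h0 : 0 ≤ q) (h1 : q ≤ 1) {W : Finset Edg} {e g h : Edg} (hgh : g ≠ h)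
    {r : ℕ} (hr : (r:ℤ) < dst e g) : PQ q W (TD e g h) ≤ 4 * arm q r := by
  have ok := okq h0 h1
  let B : Vtx → Finset Edg → Prop := fun v F => ∃ u : Vtx, (u.1 ≤ v.1 - r ∨ v.1 + r ≤ u.1 ∨
    u.2 ≤ v.2 - r ∨ v.2 + r ≤ u.2) ∧ Reach (↑F) v u
  have hB : ∀ v, Pr (fun _ => q) W (B v) ≤ arm q r := fun v => arm_bound h0 h1 W v r
  have hfar : ∀ x ∈ ({src e, tgt e} : Set Vtx), ∀ y ∈ ({src g, tgt g} : Set Vtx),
      (y.1 ≤ x.1 - r ∨ x.1 + r ≤ y.1 ∨ y.2 ≤ x.2 - r ∨ x.2 + r ≤ y.2) := by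
    obtain ⟨e1, e2, e3⟩ := e
    obtain ⟨g1, g2, g3⟩ := g
    unfold dst at hr
    simp only at hr
    rw [lt_max_iff] at hr
    intro x hx y hy
    rcases hr with hr | hr <;> rw [lt_abs] at hr <;>
    rcases hx with rfl | rfl <;> rcases hy with rfl | rfl <;> rcases e3 with _ | _ <;>
      rcases g3 with _ | _ <;> simp [src, tgt] <;> omega
  have hsub : Pr (fun _ => q) W (TD e g h) ≤
      Pr (fun _ => q) W (fun F => B (src e) F ∨ B (tgt e) F) := by
    apply Pr_mono ok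
    intro F _ T
    obtain ⟨x, hx, y, hy, hR⟩ := TDc hgh T
    have hR' : Reach (↑F) x y := hR.mono Set.sdiff_subset
    have hf := hfar x hx y hy
    rcases hx with rfl | rfl
    · exact Or.inl ⟨y, hf, hR'⟩
    · exact Or.inr ⟨y, hf, hR'⟩
  have hor := Pr_or_le ok W (B (src e)) (B (tgt e))
  have ha := arm_nonneg h0 h1 r
  have b1 := hB (src e)
  have b2 := hB (tgt e)
  show Pr (fun _ => q) W (TD e g h) ≤ 4 * arm q r
  linarith

end H12A
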