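import Pool.Agent.H12R3.A.Defs

/-! Task B1a of `h12a_tasks` (helper797): `ho_err`, `L4_arm`. -/

namespace H12A

open H974 H12S H973N Finset

/-- A connection off the boundary stays in the rectangle. -/
theorem B1a_stay {G : Set Edg} {a b c d : ℤ} {u v : Vtx} (hu : inR a b c d u) (h : Reach G u v)
    (hno : ¬ ∃ w ∈ bdR a b c d, Reach (G ∩ ↑(RE a b c d)) u w) :
    Reach (G ∩ ↑(RE a b c d)) u v := by
  have hint : ∀ w, Reach G u w → (a < w.1 ∧ w.1 < b) ∧ (c < w.2 ∧ w.2 < d) := by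
    intro w hw
    by_contra hcon
    obtain ⟨z, k1, k2, k3⟩ := first_exit hu hw (by omega)
    exact hno ⟨z, ⟨k1, k2⟩, k3⟩
  induction h with
  | refl => exact Reach.refl _ _
  | @tail w w' hw hs ih =>
    have hi := hint w hw
    obtain ⟨⟨x0, y0, bo⟩, heG, hcase⟩ := hs
    have hmem : ((x0, y0, bo) : Edg) ∈ RE a b c d := by
      cases bo
      · simp only [src_mk, tgt_false] at hcase
        rw [mem_RE_false]
        rcases hcase with ⟨h3, h4⟩ | ⟨h3, h4⟩
        · rw [← h3] at hi; simp only at hi; omega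
        · rw [← h4] at hi; simp only at hi; omega
      · simp only [src_mk, tgt_true] at hcase
        rw [mem_RE_true]
        rcases hcase with ⟨h3, h4⟩ | ⟨h3, h4⟩
        · rw [← h3] at hi; simp only at hi; omega
        · rw [← h4] at hi; simp only at hi; omega
    have hadj : Adj (G ∩ ↑(RE a b c d)) w w' := ⟨_, ⟨heG, hmem⟩, hcase⟩
    exact ih.trans hadj.reach

theorem B1a_fo_mono {e : Edg} {F G : Finset Edg} (h : F ⊆ G) (hF : fo e F) : fo e G := by
  unfold fo at hF ⊢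
  refine hF.mono ?_
  exact_mod_cast Finset.erase_subset_erase e h

theorem B1a_incr (S : Finset Edg) (e : Edg) : IncrE S (fo e) :=
  fun _ _ h _ hF => B1a_fo_mono h hF

theorem B1a_mem {x y : ℤ} {b : Bool} {m : ℕ} (hm : 1 ≤ m) :
    inR (x - m) (x + m) (y - m) (y + m) (src (x, y, b)) ∧
      inR (x - m) (x + m) (y - m) (y + m) (tgt (x, y, b)) := by
  unfold inR
  constructor
  · simp only [src_mk]; omega
  · cases b
    · simp only [tgt_false]; omega
    · simp only [tgt_true]; omega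

/-- Locality of `fo` outside the four-arm event. -/
theorem B1a_loc {e : Edg} {m : ℕ} (hm : 1 ≤ m) {F : Finset Edg} (h : fo e F) :
    fo e (F ∩ blk (bp e) m) ∨ L4 m e ↑F := by
  by_cases h2 : fo e (F ∩ blk (bp e) m)
  · exact Or.inl h2
  right
  obtain ⟨x, y, b⟩ := e
  obtain ⟨i1, i2⟩ := B1a_mem (x := x) (y := y) (b := b) hm
  unfold fo at h h2
  have e1 : (↑((F ∩ blk (bp (x, y, b)) m).erase (x, y, b)) : Set Edg) =
      (↑(F.erase (x, y, b)) : Set Edg) ∩ ↑(RE (x - m) (x + m) (y - m) (y + m)) := by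
    ext g
    simp only [blk, bp, Finset.mem_coe, Finset.mem_erase, Finset.mem_inter, Set.mem_inter_iff]
    tauto
  have e2 : ((↑F : Set Edg) ∩ ↑(RE (x - m) (x + m) (y - m) (y + m))) \ {(x, y, b)} =
      (↑(F.erase (x, y, b)) : Set Edg) ∩ ↑(RE (x - m) (x + m) (y - m) (y + m)) := by
    ext g
    simp only [Finset.mem_coe, Finset.mem_erase, Set.mem_inter_iff, Set.mem_sdiff,
      Set.mem_singleton_iff]
    tauto
  rw [e1] at h2
  unfold L4 A4
  simp only
  rw [e2]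
  refine ⟨?_, ?_, h2⟩
  · by_contra hno
    exact h2 (B1a_stay i1 h hno)
  · by_contra hno
    exact h2 (B1a_stay i2 h.symm hno).symm

theorem B1a_L4_local {e : Edg} {m : ℕ} {F : Finset Edg} :
    L4 m e (↑F : Set Edg) ↔ L4 m e (↑(F ∩ blk (bp e) m) : Set Edg) := by
  refine A4_congr ?_
  intro g hg _
  rw [Finset.coe_inter]
  constructor
  · intro h
    exact ⟨h, Finset.mem_coe.mpr hg⟩
  · intro h
    exact h.1

theorem B1a_upper {q : ℝ} (h0 : 0 ≤ q) (h1 : q ≤ 1) {W : Finset Edg} {e : Edg} {m : ℕ}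
    (hm : 1 ≤ m) (hW : blk (bp e) m ⊆ W) : PQ q W (fo e) ≤
      PQ q (blk (bp e) m) (fo e) + PQ q (blk (bp e) m) (fun F => L4 m e ↑F) := by
  have ok := okq h0 h1
  have s1 : PQ q W (fo e) ≤
      PQ q W (fun F => fo e (F ∩ blk (bp e) m) ∨ L4 m e (↑(F ∩ blk (bp e) m) : Set Edg)) := by
    apply Pr_mono ok
    intro F _ hF
    rcases B1a_loc hm hF with h | h
    · exact Or.inl h
    · exact Or.inr (B1a_L4_local.1 h)
  have s2 : PQ q W (fun F => fo e (F ∩ blk (bp e) m) ∨ L4 m e (↑(F ∩ blk (bp e) m) : Set Edg)) =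
      PQ q (blk (bp e) m) (fun F => fo e F ∨ L4 m e (↑F : Set Edg)) := by
    have s3 : PQ q W (fun F => fo e (F ∩ blk (bp e) m) ∨
        L4 m e (↑(F ∩ blk (bp e) m) : Set Edg)) = PQ q (blk (bp e) m)
        (fun F => fo e (F ∩ blk (bp e) m) ∨ L4 m e (↑(F ∩ blk (bp e) m) : Set Edg)) := by
      apply Pr_local hW
      intro F _
      rw [Finset.inter_assoc, Finset.inter_self]
    rw [s3]
    apply Pr_congr
    intro F hF
    rw [Finset.inter_eq_left.2 hF]
  rw [s2] at s1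
  exact s1.trans (Pr_or_le ok _ _ _)

theorem B1a_fo_trl (x y : ℤ) (b : Bool) (F : Finset Edg) :
    fo (x, y, b) ((trl x y).mp F) ↔ fo (e0 b) F := by
  unfold fo
  have e1 : (↑(((trl x y).mp F).erase (x, y, b)) : Set Edg) =
      (trl x y).φ '' (↑(F.erase (e0 b)) : Set Edg) := by
    ext ⟨x1, y1, b1⟩
    simp only [Finset.mem_coe, Finset.mem_erase, LSym.mem_mp, trl_φs, Set.mem_image]
    constructor
    · rintro ⟨h1, h2⟩
      refine ⟨(x1 - x, y1 - y, b1), ⟨?_, h2⟩, by rw [trl_φ]; simp⟩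
      intro h3
      apply h1
      unfold e0 at h3
      simp only [Prod.mk.injEq] at h3 ⊢
      exact ⟨by omega, by omega, h3.2.2⟩
    · rintro ⟨⟨x2, y2, b2⟩, ⟨h1, h2⟩, h3⟩
      rw [trl_φ] at h3
      simp only [Prod.mk.injEq] at h3
      obtain ⟨h4, h5, rfl⟩ := h3
      subst h4
      subst h5
      refine ⟨?_, by simpa using h2⟩
      intro h3
      apply h1
      unfold e0
      simp only [Prod.mk.injEq] at h3 ⊢
      exact ⟨by omega, by omega, h3.2.2⟩
  have hsrc : src (x, y, b) = (trl x y).ψ (src (e0 b)) := by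
    unfold e0
    simp
  have htgt : tgt (x, y, b) = (trl x y).ψ (tgt (e0 b)) := by
    unfold e0
    cases b <;> simp [add_comm]
  rw [e1, hsrc, htgt, LSym.reach_iff]

theorem B1a_box (q : ℝ) (e : Edg) (m : ℕ) :
    PQ q (blk (bp e) m) (fo e) = PQ q (boxE m) (fo (e0 e.2.2)) := by
  obtain ⟨x, y, b⟩ := e
  have e2 : blk (bp (x, y, b)) m = (trl x y).mp (boxE m) := by
    unfold blk boxE bp
    rw [trl_RE]
    congr 1 <;> simp only <;> ring
  rw [e2]
  unfold PQ
  rw [LSym.pr]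
  refine Pr_congr fun F _ => ?_
  exact B1a_fo_trl x y b F

theorem B1a_bdd {q : ℝ} (h0 : 0 ≤ q) (h1 : q ≤ 1) (b : Bool) :
    BddAbove (Set.range (fun m : ℕ => PQ q (boxE m) (fo (e0 b)))) :=
  ⟨1, by rintro _ ⟨m, rfl⟩; exact Pr_le_one (okq h0 h1) _ _⟩

theorem B1a_blk_mono {c : ℤ × ℤ} {m n : ℕ} (h : m ≤ n) : blk c m ⊆ blk c n := by
  unfold blk
  have h' : (m:ℤ) ≤ n := by exact_mod_cast h
  rintro ⟨x, y, _ | _⟩ h8
  · simp only [mem_RE_false] at h8 ⊢; omega
  · simp only [mem_RE_true] at h8 ⊢; omega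

/-- A finite set of edges is contained in a large block. -/
theorem B1a_cover (c : ℤ × ℤ) (W : Finset Edg) : ∃ m : ℕ, W ⊆ blk c m := by
  classical
  induction W using Finset.induction_on with
  | empty => exact ⟨0, Finset.empty_subset _⟩
  | insert g W _ ih =>
    obtain ⟨m, hm⟩ := ih
    obtain ⟨x, y, b⟩ := g
    refine ⟨m + (x - c.1).natAbs + (y - c.2).natAbs + 1, Finset.insert_subset ?_
      (hm.trans (B1a_blk_mono (by omega)))⟩
    unfold blk
    generalize hM : m + (x - c.1).natAbs + (y - c.2).natAbs + 1 = M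
    cases b
    · rw [mem_RE_false]; omega
    · rw [mem_RE_true]; omega

theorem ho_err {q : ℝ} (h0 : 0 ≤ q) (h1 : q ≤ 1) {W : Finset Edg} {e : Edg} {m : ℕ} (hm : 1 ≤ m)
    (hW : blk (bp e) m ⊆ W) : PQ q W (fo e) ≤ ho q e.2.2 ∧
      ho q e.2.2 ≤ PQ q W (fo e) + PQ q (blk (bp e) m) (fun F => L4 m e ↑F) := by
  have ok := okq h0 h1
  constructor
  · obtain ⟨n, hn⟩ := B1a_cover (bp e) W
    have s1 : PQ q W (fo e) ≤ PQ q (blk (bp e) n) (fo e) := Pr_mono_set ok hn (B1a_incr _ e)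
    rw [B1a_box] at s1
    exact s1.trans (le_ciSup (B1a_bdd h0 h1 e.2.2) n)
  · unfold ho
    apply ciSup_le
    intro n
    have s1 : PQ q (boxE n) (fo (e0 e.2.2)) ≤ PQ q (blk (bp e) (max m n)) (fo e) := by
      rw [← B1a_box]
      exact Pr_mono_set ok (B1a_blk_mono (le_max_right m n)) (B1a_incr _ e)
    have s2 := B1a_upper h0 h1 (e := e) hm (B1a_blk_mono (c := bp e) (le_max_left m n))
    have s3 : PQ q (blk (bp e) m) (fo e) ≤ PQ q W (fo e) := Pr_mono_set ok hW (B1a_incr _ e)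
    linarith

theorem L4_arm {q : ℝ} (h0 : 0 ≤ q) (h1 : q ≤ 1) {e : Edg} {m : ℕ} (hm : 1 ≤ m) :
    PQ q (blk (bp e) m) (fun F => L4 m e ↑F) ≤ arm q m := by
  refine le_trans ?_ (arm_bound h0 h1 (blk (bp e) m) (src e) m)
  apply Pr_mono (okq h0 h1)
  rintro F _ ⟨⟨w, ⟨_, hw⟩, hr⟩, -, -⟩
  refine ⟨w, ?_, hr.mono ?_⟩
  · obtain ⟨x, y, b⟩ := e
    simp only [src_mk] at hw ⊢
    omega
  · rintro g ⟨⟨hg, -⟩, -⟩
    exact hg

end H12A
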