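import Pool.Agent.H12R3.A.Defs

/-!
Task B2: duality for the event that the end points of an edge of a box are joined off the edge.
-/

namespace H12A

open H974 H12S H973N Finset

/-! ### a cycle of the dual lattice separates the end points of its edges -/

/-- A mod 2 cycle of dual edges which avoids `G` is not crossed by a path of `G`. -/
theorem cycle_path {a b c d : ℤ} {Z : Edg → ZMod 2} (hZ : ∀ e, Z e ≠ 0 → e ∈ RE a b c d)
    (hbd : ∀ x y, bd Z x y = 0) {G : Set Edg} (hG : G ⊆ ↑(RE a b c d))
    (hGZ : ∀ e ∈ G, Z e = 0) {e : Edg} (he : e ∈ RE a b c d)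
    (hr : Reach G (src e) (tgt e)) : Z e = 0 := by
  have hZ0 : ∀ e, e ∉ RE a b c d → Z e = 0 := by
    intro e he
    by_contra h
    exact he (hZ e h)
  set s : ℤ → ℤ → ZMod 2 := fun x y => ∑ i ∈ Finset.Ico a x, Z (i, y, true) with hs
  have sH : ∀ x y, a ≤ x → s (x + 1) y = s x y + Z (x, y, true) := by
    intro x y hx
    simp only [hs]
    rw [sum_Ico_int_succ hx]
  have hleft : ∀ y, Z (a, y, false) = 0 := by
    intro y
    have h := hbd (a - 1) y
    unfold bd at h
    rw [hZ0 (a - 1, y, true) (by simp), hZ0 (a - 1, y + 1, true) (by simp),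
      hZ0 (a - 1, y, false) (by simp), sub_add_cancel] at h
    simpa using h
  have sV : ∀ (n : ℕ) (y : ℤ), s (a + n) (y + 1) + s (a + n) y = Z (a + n, y, false) := by
    intro n y
    induction n with
    | zero =>
      have : Z (a + ((0:ℕ):ℤ), y, false) = 0 := by
        have := hleft y
        simpa using this
      rw [this]
      simp [hs]
    | succ n ih =>
      have e1 : a + ((n + 1 : ℕ) : ℤ) = (a + n) + 1 := by push_cast; ring
      rw [e1, sH _ _ (by omega), sH _ _ (by omega)]
      have h3 := hbd (a + n) y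
      unfold bd at h3
      have h5 := zmod2_add_self (Z (a + n + 1, y, false))
      linear_combination ih + h3 - h5
  have sV' : ∀ x y, a ≤ x → s x (y + 1) = s x y + Z (x, y, false) := by
    intro x y hx
    obtain ⟨n, hn⟩ := Int.eq_ofNat_of_zero_le (sub_nonneg.mpr hx)
    have e1 : x = a + n := by omega
    have h3 := sV n y
    rw [← e1] at h3
    have h4 := zmod2_add_self (s x y)
    linear_combination h3 - h4
  -- constancy along paths
  have hpath : ∀ w w' : Vtx, a ≤ w.1 → Reach G w w' → a ≤ w'.1 ∧ s w'.1 w'.2 = s w.1 w.2 := by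
    intro w w' hw hr
    induction hr with
    | refl => exact ⟨hw, rfl⟩
    | @tail w' w'' _ hstep ih =>
      obtain ⟨⟨x0, y0, bo⟩, heG, hcase⟩ := hstep
      have hZe := hGZ _ heG
      have heR := hG heG
      cases bo
      · have hm : a ≤ x0 ∧ x0 ≤ b ∧ c ≤ y0 ∧ y0 < d := by simpa using heR
        have h3 := sV' x0 y0 hm.1
        rw [hZe, add_zero] at h3
        simp only [src_mk, tgt_false] at hcase
        rcases hcase with ⟨h4, h5⟩ | ⟨h4, h5⟩
        · rw [← h4] at ih; rw [← h5]
          exact ⟨hm.1, h3.trans ih.2⟩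
        · rw [← h5] at ih; rw [← h4]
          exact ⟨hm.1, h3.symm.trans ih.2⟩
      · have hm : a ≤ x0 ∧ x0 < b ∧ c ≤ y0 ∧ y0 ≤ d := by simpa using heR
        have h3 := sH x0 y0 hm.1
        rw [hZe, add_zero] at h3
        simp only [src_mk, tgt_true] at hcase
        rcases hcase with ⟨h4, h5⟩ | ⟨h4, h5⟩
        · rw [← h4] at ih; rw [← h5]
          exact ⟨by simp only; omega, h3.trans ih.2⟩
        · rw [← h5] at ih; rw [← h4]
          exact ⟨hm.1, h3.symm.trans ih.2⟩
  obtain ⟨x0, y0, bo⟩ := e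
  cases bo
  · have hm : a ≤ x0 ∧ x0 ≤ b ∧ c ≤ y0 ∧ y0 < d := by simpa using he
    have k1 := (hpath _ _ (by simpa using hm.1) hr).2
    simp only [src_mk, tgt_false] at k1
    have h3 := sV' x0 y0 hm.1
    rw [k1] at h3
    simpa using h3.symm
  · have hm : a ≤ x0 ∧ x0 < b ∧ c ≤ y0 ∧ y0 ≤ d := by simpa using he
    have k1 := (hpath _ _ (by simpa using hm.1) hr).2
    simp only [src_mk, tgt_true] at k1
    have h3 := sH x0 y0 hm.1
    rw [k1] at h3
    simpa using h3.symm

theorem dual_fo_1 {a b c d : ℤ} {F : Finset Edg} (hF : F ⊆ RE a b c d) {e : Edg}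
    (he : e ∈ RE a b c d)
    (hd : DReach ((↑(RE a b c d) \ ↑F) \ {e} : Set Edg) (dsrc e) (dtgt e)) : ¬ fo e F := by
  intro hfo
  obtain ⟨Z, hZ1, hZ2⟩ := chain_of_dreach hd
  have h1 : Z e + b2 (e = e) = 0 := by
    refine cycle_path (Z := fun e' => Z e' + b2 (e' = e)) (a := a) (b := b) (c := c) (d := d)
        (G := (↑(F.erase e) : Set Edg)) ?_ ?_ ?_ ?_ he hfo
    · intro e' h'
      by_cases hee : e' = e
      · rw [hee]; exact he
      · have h'' : Z e' + b2 (e' = e) ≠ 0 := h'
        rw [b2_not_of hee, add_zero] at h''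
        exact (hZ1 e' h'').1.1
    · intro x y
      rw [bd_add, hZ2, bd_single]
      exact zmod2_add_self _
    · intro g hg
      exact hF (Finset.mem_of_mem_erase hg)
    · intro e' he'
      have he'' : e' ∈ F.erase e := he'
      have hee : e' ≠ e := Finset.ne_of_mem_erase he''
      have hz : Z e' = 0 := by
        by_contra hcon
        exact (hZ1 e' hcon).1.2 (Finset.mem_of_mem_erase he'')
      simp only [hz, b2_not_of hee, add_zero]
  have h2 : Z e = 0 := by
    by_contra hcon
    exact (hZ1 e hcon).2 rfl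
  rw [h2, b2_of (rfl : e = e), zero_add] at h1
  exact one_ne_zero h1

/-! ### the dual circuit around a cluster -/

/-- The two faces of a boundary edge of `W` are joined by a dual path of other boundary edges, if
the dual cluster does not reach the outside of the box. -/
theorem parity {a b c d : ℤ} {W : Vtx → Prop} {e : Edg} (he : e ∈ RE a b c d)
    (heW : e ∈ bdry W)
    (hCout : ∀ f ∈ outF a b c d, ¬ DReach ((bdry W ∩ ↑(RE a b c d)) \ {e}) (dsrc e) f) :
    DReach ((bdry W ∩ ↑(RE a b c d)) \ {e}) (dsrc e) (dtgt e) := by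
  by_contra hf1
  set G : Set Edg := (bdry W ∩ ↑(RE a b c d)) \ {e} with hG
  set C : Vtx → Prop := fun f => DReach G (dsrc e) f with hC
  have hCf0 : C (dsrc e) := DReach.refl _ _
  have hCcl : ∀ g ∈ G, (C (dsrc g) ↔ C (dtgt g)) := by
    intro g hg
    constructor
    · intro h; exact h.trans (DAdj.reach ⟨g, hg, Or.inl ⟨rfl, rfl⟩⟩)
    · intro h; exact h.trans (DAdj.reach ⟨g, hg, Or.inr ⟨rfl, rfl⟩⟩)
  set Z : Edg → ZMod 2 := fun g => b2 (g ∈ G ∧ C (dtgt g)) with hZ
  have hZG : ∀ g, Z g ≠ 0 → g ∈ G ∧ C (dtgt g) := by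
    intro g hg
    by_contra hcon
    exact hg (b2_not_of hcon)
  have hswap : ∀ g, Z g = b2 (g ∈ G ∧ C (dsrc g)) := by
    intro g
    apply b2_congr
    constructor
    · rintro ⟨h1, h2⟩; exact ⟨h1, (hCcl g h1).mpr h2⟩
    · rintro ⟨h1, h2⟩; exact ⟨h1, (hCcl g h1).mp h2⟩
  -- boundary of the chain
  have hbdZ : ∀ x y, bd Z x y = b2 (C (x, y)) *
      (b2 (dsrc e = (x, y)) + b2 (dtgt e = (x, y))) := by
    intro x y
    by_cases hxy : C (x, y)
    · have hin : ¬ (x < a ∨ b ≤ x ∨ y < c ∨ d ≤ y) := fun h => hCout (x, y) h hxy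
      push Not at hin
      have hone : ∀ g : Edg, g ∈ RE a b c d → (C (dtgt g) ∨ C (dsrc g)) →
          Z g = b2 (W (src g)) + b2 (W (tgt g)) + b2 (g = e) := by
        intro g hgR hCg
        have h1 : Z g = b2 (g ∈ G) := by
          rcases hCg with h | h
          · exact b2_congr ⟨fun k => k.1, fun k => ⟨k, h⟩⟩
          · rw [hswap]; exact b2_congr ⟨fun k => k.1, fun k => ⟨k, h⟩⟩
        rw [h1, ← b2_iff_add]
        by_cases hge : g = e
        · subst hge
          rw [b2_of (rfl : g = g), b2_of (show ¬ (W (src g) ↔ W (tgt g)) from heW),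
            b2_not_of (fun h => h.2 rfl)]
          rfl
        · rw [b2_not_of hge, add_zero]
          apply b2_congr
          constructor
          · intro h; exact h.1.1
          · intro h; exact ⟨⟨h, hgR⟩, hge⟩
      have m1 := hone (x, y, true) (by simp only [mem_RE_true]; omega) (Or.inl (by simpa using hxy))
      have m2 := hone (x, y + 1, true) (by simp only [mem_RE_true]; omega)
        (Or.inr (by simpa using hxy))
      have m3 := hone (x, y, false) (by simp only [mem_RE_false]; omega)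
        (Or.inl (by simpa using hxy))
      have m4 := hone (x + 1, y, false) (by simp only [mem_RE_false]; omega)
        (Or.inr (by simpa using hxy))
      simp only [src_mk, tgt_true, tgt_false] at m1 m2 m3 m4
      have hs := bd_single e x y
      unfold bd at hs ⊢
      rw [m1, m2, m3, m4, b2_of hxy, ← hs]
      have k1 := zmod2_add_self (b2 (W (x, y)))
      have k2 := zmod2_add_self (b2 (W (x + 1, y)))
      have k3 := zmod2_add_self (b2 (W (x, y + 1)))
      have k4 := zmod2_add_self (b2 (W (x + 1, y + 1)))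
      linear_combination k1 + k2 + k3 + k4
    · rw [b2_not_of hxy, zero_mul]
      have z1 : Z (x, y, true) = 0 := b2_not_of (fun h => hxy (by simpa using h.2))
      have z2 : Z (x, y + 1, true) = 0 := by
        rw [hswap]; exact b2_not_of (fun h => hxy (by simpa using h.2))
      have z3 : Z (x, y, false) = 0 := b2_not_of (fun h => hxy (by simpa using h.2))
      have z4 : Z (x + 1, y, false) = 0 := by
        rw [hswap]; exact b2_not_of (fun h => hxy (by simpa using h.2))
      unfold bd
      rw [z1, z2, z3, z4]; ring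
  -- parity contradiction
  have hb : ∀ x y, bd Z x y = b2 (dsrc e = (x, y)) := by
    intro x y
    rw [hbdZ]
    by_cases hxy : C (x, y)
    · rw [b2_of hxy, one_mul]
      have n1 : ¬ (dtgt e = (x, y)) := by
        intro h
        apply hf1
        rw [h]
        exact hxy
      rw [b2_not_of n1, add_zero]
    · have n1 : ¬ (dsrc e = (x, y)) := by
        intro h; rw [h] at hCf0; exact hxy hCf0
      rw [b2_not_of hxy, b2_not_of n1, zero_mul]
  have hf0in : ¬ ((dsrc e).1 < a ∨ b ≤ (dsrc e).1 ∨ (dsrc e).2 < c ∨ d ≤ (dsrc e).2) :=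
    fun h => hCout (dsrc e) h hCf0
  push Not at hf0in
  have hsum : ∑ x ∈ Finset.Ico a b, ∑ y ∈ Finset.Ico c d, bd Z x y = 0 := by
    have e1 : ∀ x ∈ Finset.Ico a b, ∑ y ∈ Finset.Ico c d, bd Z x y =
        ∑ y ∈ Finset.Ico c d, (Z (x, y, true) + Z (x, y + 1, true)) +
        ∑ y ∈ Finset.Ico c d, (Z (x, y, false) + Z (x + 1, y, false)) := by
      intro x _
      rw [← Finset.sum_add_distrib]
      apply Finset.sum_congr rfl
      intro y _
      unfold bd; ring
    rw [Finset.sum_congr rfl e1, Finset.sum_add_distrib]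
    have e2 : ∑ x ∈ Finset.Ico a b, ∑ y ∈ Finset.Ico c d, (Z (x, y, true) + Z (x, y + 1, true))
        = 0 := by
      apply Finset.sum_eq_zero
      intro x hx
      rw [Finset.mem_Ico] at hx
      rw [telescope' (by omega) (fun y => Z (x, y, true))]
      have z1 : Z (x, c, true) = 0 := by
        rw [hswap]
        apply b2_not_of
        rintro ⟨_, h⟩
        exact hCout _ (by simp only [dsrc_true]; right; right; left; simp) h
      have z2 : Z (x, d, true) = 0 := by
        apply b2_not_of
        rintro ⟨_, h⟩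
        exact hCout _ (by simp only [dtgt_mk]; right; right; right; simp) h
      rw [z1, z2]; ring
    have e3 : ∑ x ∈ Finset.Ico a b, ∑ y ∈ Finset.Ico c d,
        (Z (x, y, false) + Z (x + 1, y, false)) = 0 := by
      rw [Finset.sum_comm]
      apply Finset.sum_eq_zero
      intro y hy
      rw [telescope' (by omega) (fun x => Z (x, y, false))]
      have z1 : Z (a, y, false) = 0 := by
        rw [hswap]
        apply b2_not_of
        rintro ⟨_, h⟩
        exact hCout _ (by simp only [dsrc_false]; left; simp) h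
      have z2 : Z (b, y, false) = 0 := by
        apply b2_not_of
        rintro ⟨_, h⟩
        exact hCout _ (by simp only [dtgt_mk]; right; left; simp) h
      rw [z1, z2]; ring
    rw [e2, e3]; ring
  have hsum1 : ∑ x ∈ Finset.Ico a b, ∑ y ∈ Finset.Ico c d, bd Z x y = 1 := by
    rw [Finset.sum_eq_single (dsrc e).1, Finset.sum_eq_single (dsrc e).2]
    · rw [hb, b2_of rfl]
    · intro y _ hy
      rw [hb, b2_not_of]
      intro h
      apply hy
      rw [h]
    · intro h
      exact absurd (Finset.mem_Ico.mpr ⟨hf0in.2.2.1, hf0in.2.2.2⟩) h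
    · intro x _ hx
      apply Finset.sum_eq_zero
      intro y _
      rw [hb, b2_not_of]
      intro h
      apply hx
      rw [h]
    · intro h
      exact absurd (Finset.mem_Ico.mpr ⟨hf0in.1, hf0in.2.1⟩) h
  rw [hsum] at hsum1
  exact zero_ne_one hsum1

/-- The faces of a boundary edge of a set of interior vertices lie in the box. -/
theorem faces_in {a b c d : ℤ} {W : Vtx → Prop}
    (hW : ∀ w, W w → a < w.1 ∧ w.1 < b ∧ c < w.2 ∧ w.2 < d) {g : Edg} (hg : g ∈ bdry W) :
    dsrc g ∉ outF a b c d ∧ dtgt g ∉ outF a b c d := by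
  obtain ⟨x, y, _ | _⟩ := g
  · have h : W (x, y) ∨ W (x, y + 1) := by
      by_contra hcon
      push Not at hcon
      apply hg
      simp only [src_mk, tgt_false]
      tauto
    simp only [dsrc_false, dtgt_mk, outF, Set.mem_setOf_eq]
    rcases h with h | h
    · have := hW _ h
      simp only at this
      omega
    · have := hW _ h
      simp only at this
      omega
  · have h : W (x, y) ∨ W (x + 1, y) := by
      by_contra hcon
      push Not at hcon
      apply hg
      simp only [src_mk, tgt_true]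
      tauto
    simp only [dsrc_true, dtgt_mk, outF, Set.mem_setOf_eq]
    rcases h with h | h
    · have := hW _ h
      simp only at this
      omega
    · have := hW _ h
      simp only at this
      omega

theorem ends_inR {a b c d : ℤ} {e : Edg} (he : e ∈ RE a b c d) :
    inR a b c d (src e) ∧ inR a b c d (tgt e) := by
  obtain ⟨x, y, _ | _⟩ := e
  · rw [mem_RE_false] at he
    simp only [inR, src_mk, tgt_false]
    omega
  · rw [mem_RE_true] at he
    simp only [inR, src_mk, tgt_true]
    omega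

theorem reach_inR {a b c d : ℤ} {F : Set Edg} (hF : F ⊆ ↑(RE a b c d)) {u v : Vtx}
    (hu : inR a b c d u) (h : Reach F u v) : inR a b c d v := by
  induction h with
  | refl => exact hu
  | tail _ hs _ =>
    obtain ⟨g, hg, hcase⟩ := hs
    have := ends_inR (hF hg)
    rcases hcase with ⟨_, h2⟩ | ⟨h2, _⟩
    · rw [← h2]; exact this.2
    · rw [← h2]; exact this.1

/-- The circuit around a cluster which does not touch the boundary of the box. -/
theorem circuit {a b c d : ℤ} {F : Set Edg} (hF : F ⊆ ↑(RE a b c d)) {e : Edg}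
    (he : e ∈ RE a b c d) {u v : Vtx} (huv : (u = src e ∧ v = tgt e) ∨ (u = tgt e ∧ v = src e))
    (hn : ¬ Reach F u v) (hb : ∀ w ∈ bdR a b c d, ¬ Reach F u w) :
    DReach ((↑(RE a b c d) \ F) \ {e}) (dsrc e) (dtgt e) := by
  set W : Vtx → Prop := fun w => Reach F u w with hW
  have hu : inR a b c d u := by
    rcases huv with ⟨h, _⟩ | ⟨h, _⟩
    · rw [h]; exact (ends_inR he).1
    · rw [h]; exact (ends_inR he).2
  have hWin : ∀ w, W w → a < w.1 ∧ w.1 < b ∧ c < w.2 ∧ w.2 < d := by
    intro w hw
    have h1 := reach_inR hF hu hw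
    have h2 : w ∉ bdR a b c d := fun h => hb w h hw
    simp only [bdR, Set.mem_setOf_eq, not_and] at h2
    have h3 := h2 h1
    simp only [inR] at h1
    omega
  have heW : e ∈ bdry W := by
    intro h
    rcases huv with ⟨h1, h2⟩ | ⟨h1, h2⟩
    · apply hn
      rw [h2]
      apply h.mp
      rw [← h1]
      exact Reach.refl _ _
    · apply hn
      rw [h2]
      apply h.mpr
      rw [← h1]
      exact Reach.refl _ _
  have hsub : (bdry W ∩ ↑(RE a b c d)) \ {e} ⊆ (↑(RE a b c d) \ F) \ {e} := by
    rintro g ⟨⟨hg1, hg2⟩, hg3⟩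
    refine ⟨⟨hg2, ?_⟩, hg3⟩
    intro hgF
    apply hg1
    constructor
    · intro h
      exact h.trans (Adj.reach ⟨g, hgF, Or.inl ⟨rfl, rfl⟩⟩)
    · intro h
      exact h.trans (Adj.reach ⟨g, hgF, Or.inr ⟨rfl, rfl⟩⟩)
  refine (parity he heW ?_).mono hsub
  intro f hf hr
  have : ∀ f, DReach ((bdry W ∩ ↑(RE a b c d)) \ {e}) (dsrc e) f → f ∉ outF a b c d := by
    intro f hr
    induction hr with
    | refl => exact (faces_in hWin heW).1
    | tail _ hs _ =>
      obtain ⟨g, hg, hcase⟩ := hs
      have h5 := faces_in hWin hg.1.1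
      rcases hcase with ⟨_, h2⟩ | ⟨h2, _⟩
      · rw [← h2]; exact h5.2
      · rw [← h2]; exact h5.1
  exact this f hr hf

theorem dual_fo_2 {a b c d : ℤ} {F : Finset Edg} (hF : F ⊆ RE a b c d) {e : Edg}
    (he : e ∈ RE a b c d) (hn : ¬ fo e F) (hA : ¬ A4 a b c d e ↑F) :
    DReach ((↑(RE a b c d) \ ↑F) \ {e} : Set Edg) (dsrc e) (dtgt e) := by
  have hset : ((↑F ∩ ↑(RE a b c d)) \ {e} : Set Edg) = ↑(F.erase e) := by
    ext g
    simp only [Set.mem_sdiff, Set.mem_inter_iff, Finset.mem_coe, Set.mem_singleton_iff,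
      Finset.mem_erase]
    constructor
    · rintro ⟨⟨h1, _⟩, h2⟩; exact ⟨h2, h1⟩
    · rintro ⟨h1, h2⟩; exact ⟨⟨h2, hF h2⟩, h1⟩
  have hsub : (↑(F.erase e) : Set Edg) ⊆ ↑(RE a b c d) := by
    intro g hg
    exact hF (Finset.mem_of_mem_erase hg)
  have hfin : DReach ((↑(RE a b c d) \ ↑(F.erase e)) \ {e} : Set Edg) (dsrc e) (dtgt e) := by
    unfold A4 at hA
    rw [hset] at hA
    by_cases h1 : ∃ w ∈ bdR a b c d, Reach (↑(F.erase e) : Set Edg) (src e) w
    · have h2 : ∀ w ∈ bdR a b c d, ¬ Reach (↑(F.erase e) : Set Edg) (tgt e) w := by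
        intro w hw hr
        exact hA ⟨h1, ⟨w, hw, hr⟩, hn⟩
      exact circuit hsub he (Or.inr ⟨rfl, rfl⟩) (fun h => hn h.symm) h2
    · push Not at h1
      exact circuit hsub he (Or.inl ⟨rfl, rfl⟩) hn h1
  refine hfin.mono ?_
  rintro g ⟨⟨h1, h2⟩, h3⟩
  refine ⟨⟨h1, ?_⟩, h3⟩
  intro h4
  exact h2 (Finset.mem_coe.2 (Finset.mem_erase.2 ⟨h3, h4⟩))

end H12A
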