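import Pool.Agent.H12R3.A.Defs

/-! Task B3 (helper477): duality of the infinite-volume connection probabilities. -/

namespace H12A

open H974 H12S H973N Finset

namespace B3

theorem e0_bp (b : Bool) : bp (e0 b) = ((0:ℤ), (0:ℤ)) := rfl

theorem dl_e0_2 (b : Bool) : (dl (e0 b)).2.2 = !b := by
  cases b <;> rfl

theorem blk_e0 (b : Bool) (m : ℕ) : blk (bp (e0 b)) m = boxE m := by
  unfold blk boxE
  rw [e0_bp]
  simp only [zero_sub, zero_add]

theorem L4_e0 (b : Bool) (m : ℕ) (F : Set Edg) :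
    L4 m (e0 b) F ↔ A4 (-(m:ℤ)) m (-(m:ℤ)) m (e0 b) F := by
  unfold L4 e0
  simp only [zero_sub, zero_add]

theorem e0_mem (b : Bool) {m : ℕ} (hm : 1 ≤ m) : e0 b ∈ boxE m := by
  unfold boxE e0
  cases b
  · rw [mem_RE_false]; omega
  · rw [mem_RE_true]; omega

theorem blk_dl (b : Bool) {m : ℕ} (hm : 3 ≤ m) : blk (bp (dl (e0 b))) (m - 2) ⊆ dmp (boxE m) := by
  intro e he
  rw [mem_dmp]
  obtain ⟨x, y, c⟩ := e
  have hcast : ((m - 2 : ℕ) : ℤ) = (m : ℤ) - 2 := by omega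
  unfold blk at he
  rw [hcast] at he
  cases b <;> cases c
  · rw [mem_RE_false] at he
    rw [dls_f]
    unfold boxE
    rw [mem_RE_true]
    simp [bp, e0] at he
    omega
  · rw [mem_RE_true] at he
    rw [dls_t]
    unfold boxE
    rw [mem_RE_false]
    simp [bp, e0] at he
    omega
  · rw [mem_RE_false] at he
    rw [dls_f]
    unfold boxE
    rw [mem_RE_true]
    simp [bp, e0] at he
    omega
  · rw [mem_RE_true] at he
    rw [dls_t]
    unfold boxE
    rw [mem_RE_false]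
    simp [bp, e0] at he
    omega

/-- the dual event -/
theorem dual_event (e : Edg) (G : Finset Edg) :
    fo (dl e) (dmp G) ↔ DReach ((↑G : Set Edg) \ {e}) (dsrc e) (dtgt e) := by
  unfold fo
  rw [src_dl, tgt_dl, ← reach_dl]
  have h : (↑((dmp G).erase (dl e)) : Set Edg) = dl '' ((↑G : Set Edg) \ {e}) := by
    ext x
    simp only [Finset.coe_erase, Set.mem_sdiff, Finset.mem_coe, Set.mem_singleton_iff, mem_dmp,
      Set.mem_image]
    constructor
    · rintro ⟨h1, h2⟩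
      refine ⟨dl.symm x, ⟨h1, ?_⟩, by simp⟩
      rintro rfl
      simp at h2
    · rintro ⟨y, ⟨h1, h2⟩, rfl⟩
      refine ⟨by simpa using h1, fun h => h2 (dl.injective h)⟩
  rw [h]

end B3

open B3

theorem ho_dual_of
    (dual1 : ∀ {a b c d : ℤ} {F : Finset Edg} (_ : F ⊆ RE a b c d) {e : Edg}
      (_ : e ∈ RE a b c d)
      (_ : DReach ((↑(RE a b c d) \ ↑F) \ {e} : Set Edg) (dsrc e) (dtgt e)), ¬ fo e F)
    (dual2 : ∀ {a b c d : ℤ} {F : Finset Edg} (_ : F ⊆ RE a b c d) {e : Edg}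
      (_ : e ∈ RE a b c d) (_ : ¬ fo e F) (_ : ¬ A4 a b c d e ↑F),
      DReach ((↑(RE a b c d) \ ↑F) \ {e} : Set Edg) (dsrc e) (dtgt e))
    (herr : ∀ {q : ℝ} (_ : 0 ≤ q) (_ : q ≤ 1) {W : Finset Edg} {e : Edg} {m : ℕ} (_ : 1 ≤ m)
      (_ : blk (bp e) m ⊆ W), PQ q W (fo e) ≤ ho q e.2.2 ∧
        ho q e.2.2 ≤ PQ q W (fo e) + PQ q (blk (bp e) m) (fun F => L4 m e ↑F))
    (hunif : ∃ τ : ℕ → ℝ, Filter.Tendsto τ Filter.atTop (nhds 0) ∧ ∀ q : ℝ, 0 ≤ q → q ≤ 1 →
      ∀ (e : Edg) (m : ℕ), 1 ≤ m → PQ q (blk (bp e) m) (fun F => L4 m e ↑F) ≤ τ m)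
    {q : ℝ} (h0 : 0 ≤ q) (h1 : q ≤ 1) (b : Bool) : ho q b + ho (1 - q) (!b) = 1 := by
  obtain ⟨τ, hτ, hL⟩ := hunif
  have hok : Ok (fun _ : Edg => q) := fun _ => ⟨h0, h1⟩
  have h0' : 0 ≤ 1 - q := by linarith
  have h1' : 1 - q ≤ 1 := by linarith
  -- finite volume
  have hfin : ∀ m : ℕ, 3 ≤ m → |ho q b + ho (1 - q) (!b) - 1| ≤ |τ m| + |τ (m - 2)| := by
    intro m hm
    have hm1 : 1 ≤ m := by omega
    set P := PQ q (boxE m) (fo (e0 b)) with hP
    set P' := PQ (1 - q) (dmp (boxE m)) (fo (dl (e0 b))) with hP'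
    have e1 := herr h0 h1 (W := boxE m) (e := e0 b) hm1 (by rw [blk_e0])
    have e2 := herr h0' h1' (W := dmp (boxE m)) (e := dl (e0 b)) (m := m - 2) (by omega)
      (blk_dl b hm)
    rw [dl_e0_2] at e2
    have e3 := hL q h0 h1 (e0 b) m hm1
    have e4 := hL (1 - q) h0' h1' (dl (e0 b)) (m - 2) (by omega)
    have e5 : P' = PQ q (boxE m) (fun F =>
        DReach ((↑(boxE m) \ ↑F) \ {e0 b} : Set Edg) (dsrc (e0 b)) (dtgt (e0 b))) := by
      rw [hP']
      show Pr (fun _ => 1 - q) _ _ = _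
      rw [pr_dmp]
      have := Pr_compl (fun _ : Edg => q) (boxE m) (fun F => fo (dl (e0 b)) (dmp F))
      rw [this]
      apply Pr_congr
      intro F hF
      rw [dual_event, Finset.coe_sdiff]
    have e6 : P' ≤ 1 - P := by
      rw [e5, hP]
      show _ ≤ 1 - Pr (fun _ => q) _ _
      rw [← Pr_not]
      apply Pr_mono hok
      intro F hF hD
      exact dual1 hF (e0_mem b hm1) hD
    have e7 : 1 - P ≤ P' + τ m := by
      rw [e5, hP]
      show 1 - Pr (fun _ => q) _ _ ≤ _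
      rw [← Pr_not]
      have e8 : PQ q (boxE m) (fun F => A4 (-(m:ℤ)) m (-(m:ℤ)) m (e0 b) ↑F) ≤ τ m := by
        refine le_trans (le_of_eq ?_) e3
        rw [blk_e0]
        apply Pr_congr
        intro F hF
        exact (L4_e0 b m ↑F).symm
      refine le_trans ?_ (add_le_add_right e8 _)
      refine le_trans ?_ (Pr_or_le hok _ _ _)
      apply Pr_mono hok
      intro F hF hD
      by_cases hA : A4 (-(m:ℤ)) m (-(m:ℤ)) m (e0 b) ↑F
      · exact Or.inr hA
      · exact Or.inl (dual2 hF (e0_mem b hm1) hD hA)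
    have f1 : (e0 b).2.2 = b := rfl
    rw [f1] at e1
    rw [abs_le]
    have g1 := le_abs_self (τ m)
    have g2 := le_abs_self (τ (m - 2))
    have g3 := abs_nonneg (τ m)
    have g4 := abs_nonneg (τ (m - 2))
    constructor <;> linarith [e1.1, e1.2, e2.1, e2.2]
  have hlim : Filter.Tendsto (fun m : ℕ => |τ m| + |τ (m - 2)|) Filter.atTop (nhds 0) := by
    have l1 : Filter.Tendsto (fun m : ℕ => |τ m|) Filter.atTop (nhds 0) := by
      simpa using hτ.abs
    have l2 : Filter.Tendsto (fun m : ℕ => |τ (m - 2)|) Filter.atTop (nhds 0) :=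
      l1.comp (Filter.tendsto_sub_atTop_nat 2)
    simpa using l1.add l2
  have hle : |ho q b + ho (1 - q) (!b) - 1| ≤ 0 := by
    refine ge_of_tendsto hlim ?_
    filter_upwards [Filter.eventually_ge_atTop 3] with m hm
    exact hfin m hm
  have := abs_nonpos_iff.1 hle
  linarith

theorem hs_dual_of
    (hdual : ∀ {q : ℝ} (_ : 0 ≤ q) (_ : q ≤ 1) (b : Bool), ho q b + ho (1 - q) (!b) = 1)
    {q : ℝ} (h0 : 0 ≤ q) (h1 : q ≤ 1) : hs q + hs (1 - q) = 2 := by
  have e1 := hdual h0 h1 true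
  have e2 := hdual h0 h1 false
  simp only [Bool.not_true, Bool.not_false] at e1 e2
  unfold hs
  linarith

end H12A
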