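import Pool.Agent.H12R3.A.Defs

/-! Task C2: the average of the finite-volume derivative. -/

namespace H12A

open H974 H12S H973N Finset

/-- Edges at distance less than `m` from the boundary of the box. -/
def Bad (n m : ℕ) (e : Edg) : Prop :=
  ¬ (((m:ℤ) ≤ e.1 ∧ e.1 + m ≤ (n:ℤ) - 1) ∧ ((m:ℤ) ≤ e.2.1 ∧ e.2.1 + m ≤ (n:ℤ) - 1))

theorem sqB_eq (n : ℕ) : sqB n =
    ((Finset.Ico 0 ((n:ℤ) - 1)) ×ˢ ((Finset.Ico 0 (n:ℤ)) ×ˢ {true})) ∪
      ((Finset.Ico 0 (n:ℤ)) ×ˢ ((Finset.Ico 0 ((n:ℤ) - 1)) ×ˢ {false})) := by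
  ext ⟨x, y, b⟩
  unfold sqB
  cases b
  · simp only [mem_RE_false, Finset.mem_union, Finset.mem_product, Finset.mem_Ico,
      Finset.mem_singleton, Bool.false_eq_true, and_false, false_or, and_true]
    omega
  · simp only [mem_RE_true, Finset.mem_union, Finset.mem_product, Finset.mem_Ico,
      Finset.mem_singleton, Bool.true_eq_false, and_false, or_false, and_true]
    omega

theorem sum_dir (n : ℕ) (hn : 1 ≤ n) (g : Bool → ℝ) :
    ∑ e ∈ sqB n, g e.2.2 = (n:ℝ) * ((n:ℝ) - 1) * (g true + g false) := by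
  rw [sqB_eq, Finset.sum_union]
  · rw [Finset.sum_product, Finset.sum_product]
    simp only [Finset.sum_product, Finset.sum_singleton, Finset.sum_const, Int.card_Ico,
      smul_eq_mul, nsmul_eq_mul]
    have h1 : ((((n:ℤ) - 1 - 0).toNat : ℕ) : ℝ) = (n:ℝ) - 1 := by
      have : ((n:ℤ) - 1 - 0).toNat = n - 1 := by omega
      rw [this, Nat.cast_sub hn, Nat.cast_one]
    have h2 : ((((n:ℤ) - 0).toNat : ℕ) : ℝ) = (n:ℝ) := by
      have : ((n:ℤ) - 0).toNat = n := by omega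
      rw [this]
    rw [h1, h2]
    ring
  · rw [Finset.disjoint_left]
    rintro ⟨x, y, b⟩ h1 h2
    simp only [Finset.mem_product, Finset.mem_singleton] at h1 h2
    rw [h1.2.2] at h2
    exact absurd h2.2.2 (by decide)

theorem card_bad (n m : ℕ) [DecidablePred (Bad n m)] :
    ((sqB n).filter (Bad n m)).card ≤ 8 * m * n := by
  have hsub : (sqB n).filter (Bad n m) ⊆
      ((((Finset.Ico 0 (m:ℤ)) ×ˢ ((Finset.Ico 0 (n:ℤ)) ×ˢ (Finset.univ : Finset Bool))) ∪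
        ((Finset.Ico ((n:ℤ) - m) (n:ℤ)) ×ˢ ((Finset.Ico 0 (n:ℤ)) ×ˢ (Finset.univ : Finset Bool)))) ∪
      (((Finset.Ico 0 (n:ℤ)) ×ˢ ((Finset.Ico 0 (m:ℤ)) ×ˢ (Finset.univ : Finset Bool))) ∪
        ((Finset.Ico 0 (n:ℤ)) ×ˢ ((Finset.Ico ((n:ℤ) - m) (n:ℤ)) ×ˢ
          (Finset.univ : Finset Bool))))) := by
    rintro ⟨x, y, b⟩ h
    rw [Finset.mem_filter, sqB_eq] at h
    simp only [Finset.mem_union, Finset.mem_product, Finset.mem_Ico, Finset.mem_univ, and_true,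
      Finset.mem_singleton, Bad] at h ⊢
    omega
  refine (Finset.card_le_card hsub).trans ?_
  refine (Finset.card_union_le _ _).trans ?_
  refine (Nat.add_le_add (Finset.card_union_le _ _) (Finset.card_union_le _ _)).trans ?_
  simp only [Finset.card_product, Int.card_Ico, Finset.card_univ, Fintype.card_bool]
  have h1 : ((m:ℤ) - 0).toNat = m := by omega
  have h2 : ((n:ℤ) - 0).toNat = n := by omega
  have h3 : ((n:ℤ) - ((n:ℤ) - m)).toNat = m := by omega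
  rw [h1, h2, h3]
  nlinarith

theorem blk_sub {n m : ℕ} {e : Edg} (h : ¬ Bad n m e) : blk (bp e) m ⊆ sqB n := by
  unfold Bad at h
  push Not at h
  unfold blk sqB bp
  apply RE_subset
  all_goals simp only
  all_goals omega

theorem ho_mem {q : ℝ} (h0 : 0 ≤ q) (h1 : q ≤ 1) (b : Bool) : 0 ≤ ho q b ∧ ho q b ≤ 1 := by
  have hok : Ok (fun _ : Edg => q) := fun _ => ⟨h0, h1⟩
  constructor
  · exact Real.iSup_nonneg fun m => Pr_nonneg hok _ _
  · exact ciSup_le fun m => Pr_le_one hok _ _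

/-- Average of the finite-volume derivative. -/
theorem avg_unif_of
    (ho_err : ∀ {q : ℝ}, 0 ≤ q → q ≤ 1 → ∀ {W : Finset Edg} {e : Edg} {m : ℕ}, 1 ≤ m →
      blk (bp e) m ⊆ W → PQ q W (fo e) ≤ ho q e.2.2 ∧
        ho q e.2.2 ≤ PQ q W (fo e) + PQ q (blk (bp e) m) (fun F => L4 m e ↑F))
    (L4_unif : ∃ τ : ℕ → ℝ, Filter.Tendsto τ Filter.atTop (nhds 0) ∧ ∀ q : ℝ, 0 ≤ q → q ≤ 1 →
      ∀ (e : Edg) (m : ℕ), 1 ≤ m → PQ q (blk (bp e) m) (fun F => L4 m e ↑F) ≤ τ m) :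
    ∃ τ : ℕ → ℝ, Filter.Tendsto τ Filter.atTop (nhds 0) ∧ ∀ q : ℝ, 0 ≤ q → q ≤ 1 →
    ∀ n : ℕ, 1 ≤ n →
      |(∑ e ∈ sqB n, PQ q (sqB n) (fun F => ¬ fo e F)) / (n:ℝ)^2 - (2 - hs q)| ≤ τ n := by
  classical
  obtain ⟨τ, hτ, hL⟩ := L4_unif
  have hsq : Filter.Tendsto Nat.sqrt Filter.atTop Filter.atTop := by
    refine Filter.tendsto_atTop.2 fun b => ?_
    filter_upwards [Filter.eventually_ge_atTop (b * b)] with n hn
    exact Nat.le_sqrt.2 hn
  refine ⟨fun n => 4 / (n:ℝ) + 2 * τ (Nat.sqrt n) + 8 * ((Nat.sqrt n : ℕ) : ℝ)⁻¹, ?_, ?_⟩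
  · have t1 : Filter.Tendsto (fun n : ℕ => (4:ℝ) / (n:ℝ)) Filter.atTop (nhds 0) :=
      tendsto_const_div_atTop_nhds_zero_nat 4
    have t2 : Filter.Tendsto (fun n : ℕ => 2 * τ (Nat.sqrt n)) Filter.atTop (nhds (2 * 0)) :=
      (hτ.comp hsq).const_mul 2
    have t3 : Filter.Tendsto (fun n : ℕ => 8 * ((Nat.sqrt n : ℕ) : ℝ)⁻¹) Filter.atTop
        (nhds (8 * 0)) :=
      ((tendsto_inv_atTop_nhds_zero_nat (𝕜 := ℝ)).comp hsq).const_mul 8
    simpa using (t1.add t2).add t3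
  · intro q h0 h1 n hn
    have hok : Ok (fun _ : Edg => q) := fun _ => ⟨h0, h1⟩
    set m := Nat.sqrt n with hm
    have hm1 : 1 ≤ m := Nat.le_sqrt.2 (by simpa using hn)
    have hmn : m * m ≤ n := Nat.sqrt_le n
    have hnR : (0:ℝ) < n := by exact_mod_cast hn
    have hmR : (0:ℝ) < m := by exact_mod_cast hm1
    have hτ0 : 0 ≤ τ m := (Pr_nonneg hok _ _).trans (hL q h0 h1 (0, 0, true) m hm1)
    -- pointwise bound
    have hpt : ∀ e ∈ sqB n, |PQ q (sqB n) (fo e) - ho q e.2.2| ≤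
        τ m + (if Bad n m e then 1 else 0) := by
      intro e _
      have hh := ho_mem h0 h1 e.2.2
      have hp0 : 0 ≤ PQ q (sqB n) (fo e) := Pr_nonneg hok _ _
      have hp1 : PQ q (sqB n) (fo e) ≤ 1 := Pr_le_one hok _ _
      by_cases hb : Bad n m e
      · rw [if_pos hb, abs_le]
        constructor <;> linarith [hh.1, hh.2]
      · rw [if_neg hb, abs_le]
        obtain ⟨e1, e2⟩ := ho_err h0 h1 hm1 (blk_sub hb)
        have e3 := hL q h0 h1 e m hm1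
        constructor <;> linarith
    have hsum : |∑ e ∈ sqB n, (PQ q (sqB n) (fo e) - ho q e.2.2)| ≤
        2 * (n:ℝ)^2 * τ m + 8 * m * n := by
      refine (Finset.abs_sum_le_sum_abs _ _).trans ?_
      refine (Finset.sum_le_sum hpt).trans ?_
      rw [Finset.sum_add_distrib]
      have s1 : ∑ _e ∈ sqB n, τ m ≤ 2 * (n:ℝ)^2 * τ m := by
        have := sum_dir n hn (fun _ => τ m)
        rw [this]
        nlinarith [mul_nonneg hnR.le hτ0]
      have s2 : ∑ e ∈ sqB n, (if Bad n m e then (1:ℝ) else 0) ≤ 8 * m * n := by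
        rw [← Finset.sum_filter, Finset.sum_const, nsmul_eq_mul, mul_one]
        exact_mod_cast card_bad n m
      linarith
    have hneg : ∀ e ∈ sqB n, PQ q (sqB n) (fun F => ¬ fo e F) = 1 - PQ q (sqB n) (fo e) :=
      fun e _ => Pr_not _ _
    have hS : ∑ e ∈ sqB n, PQ q (sqB n) (fun F => ¬ fo e F) =
        (n:ℝ) * (n - 1) * (2 - hs q) - ∑ e ∈ sqB n, (PQ q (sqB n) (fo e) - ho q e.2.2) := by
      rw [Finset.sum_congr rfl hneg]
      have := sum_dir n hn (fun b => 1 - ho q b)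
      have h2 : ∑ e ∈ sqB n, (1 - PQ q (sqB n) (fo e)) = ∑ e ∈ sqB n, (1 - ho q e.2.2) -
          ∑ e ∈ sqB n, (PQ q (sqB n) (fo e) - ho q e.2.2) := by
        rw [← Finset.sum_sub_distrib]
        exact Finset.sum_congr rfl fun e _ => by ring
      rw [h2, this]
      unfold hs
      ring
    have hhs : 0 ≤ 2 - hs q ∧ 2 - hs q ≤ 2 := by
      have a1 := ho_mem h0 h1 true
      have a2 := ho_mem h0 h1 false
      unfold hs
      constructor <;> linarith [a1.1, a1.2, a2.1, a2.2]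
    have hdiff : (∑ e ∈ sqB n, PQ q (sqB n) (fun F => ¬ fo e F)) / (n:ℝ)^2 - (2 - hs q) =
        (-(n:ℝ) * (2 - hs q) - ∑ e ∈ sqB n, (PQ q (sqB n) (fo e) - ho q e.2.2)) / (n:ℝ)^2 := by
      rw [hS]
      field_simp
      ring
    rw [hdiff, abs_div, abs_of_pos (by positivity : (0:ℝ) < (n:ℝ)^2), div_le_iff₀ (by positivity)]
    have hA : |-(n:ℝ) * (2 - hs q) - ∑ e ∈ sqB n, (PQ q (sqB n) (fo e) - ho q e.2.2)| ≤
        2 * n + (2 * (n:ℝ)^2 * τ m + 8 * m * n) := by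
      refine (abs_sub _ _).trans (add_le_add ?_ hsum)
      rw [abs_mul, abs_neg, abs_of_pos hnR, abs_of_nonneg hhs.1]
      nlinarith [hhs.2]
    refine hA.trans ?_
    have hB : (4 / (n:ℝ) + 2 * τ m + 8 * (m:ℝ)⁻¹) * (n:ℝ)^2 =
        4 * n + 2 * (n:ℝ)^2 * τ m + 8 * ((m:ℝ)⁻¹ * n) * n := by
      field_simp
    rw [hB]
    have hC : (m:ℝ) ≤ (m:ℝ)⁻¹ * n := by
      rw [inv_mul_eq_div, le_div_iff₀ hmR]
      exact_mod_cast hmn
    have hD : 8 * (m:ℝ) * n ≤ 8 * ((m:ℝ)⁻¹ * n) * n := by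
      apply mul_le_mul_of_nonneg_right _ hnR.le
      linarith
    linarith

end H12A
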