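import Pool.Agent.H12R3.A.Defs

/-!
The expected number of clusters of the box as a finite expectation.
-/

namespace H12A

open H974 H12S H973N Finset MeasureTheory

theorem edge_in_sqB {n : ℕ} {e : Edg} {u v : ℤ × ℤ}
    (hu : (0 ≤ u.1 ∧ u.1 < n) ∧ (0 ≤ u.2 ∧ u.2 < n)) (hv : (0 ≤ v.1 ∧ v.1 < n) ∧ (0 ≤ v.2 ∧ v.2 < n))
    (he : (src e = u ∧ tgt e = v) ∨ (src e = v ∧ tgt e = u)) : e ∈ sqB n := by
  obtain ⟨x, y, _ | _⟩ := e
  · unfold sqB
    rw [mem_RE_false]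
    rcases he with ⟨rfl, rfl⟩ | ⟨rfl, rfl⟩ <;> simp only [src_mk, tgt_false] at hu hv <;> omega
  · unfold sqB
    rw [mem_RE_true]
    rcases he with ⟨rfl, rfl⟩ | ⟨rfl, rfl⟩ <;> simp only [src_mk, tgt_true] at hu hv <;> omega

theorem adj_restrict {n : ℕ} (ω : sqLattice.edgeSet → Bool) {u v : ℤ × ℤ}
    (hu : (0 ≤ u.1 ∧ u.1 < n) ∧ (0 ≤ u.2 ∧ u.2 < n))
    (hv : (0 ≤ v.1 ∧ v.1 < n) ∧ (0 ≤ v.2 ∧ v.2 < n)) :
    (openGraph ω).Adj u v ↔ Adj (↑(FF (sqB n) ω ∩ sqB n) : Set Edg) u v := by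
  rw [openGraph_adj]
  constructor
  · rintro ⟨e, he, hc⟩
    have hS := edge_in_sqB hu hv hc
    refine ⟨e, ?_, hc⟩
    rw [mem_coe, mem_inter, mem_FF]
    exact ⟨⟨hS, he⟩, hS⟩
  · rintro ⟨e, he, hc⟩
    rw [mem_coe, mem_inter, mem_FF] at he
    exact ⟨e, he.1.2, hc⟩

/-- the two graphs are isomorphic -/
noncomputable def isoGB (n : ℕ) (ω : sqLattice.edgeSet → Bool) :
    ((openGraph ω).induce {v : ℤ × ℤ | (0 ≤ v.1 ∧ v.1 < n) ∧ (0 ≤ v.2 ∧ v.2 < n)}) ≃g
      GB n (FF (sqB n) ω) where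
  toEquiv := Equiv.refl _
  map_rel_iff' := by
    intro u v
    have h := adj_restrict ω u.2 v.2
    show (u ≠ v ∧ Adj (↑(FF (sqB n) ω ∩ sqB n) : Set Edg) u.1 v.1) ↔ (openGraph ω).Adj u.1 v.1
    rw [h]
    constructor
    · exact fun h => h.2
    · intro h'
      refine ⟨?_, h'⟩
      rintro rfl
      exact (h.2 h').ne rfl

theorem clusters_eq (n : ℕ) (ω : sqLattice.edgeSet → Bool) :
    clusters n ω = KN n (FF (sqB n) ω) :=
  Nat.card_congr (isoGB n ω).connectedComponentEquiv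

/-- integral of a function of the open edges of a finite set -/
theorem integral_FF (p : unitInterval) (S : Finset Edg) (f : Finset Edg → ℝ) :
    ∫ ω, f (FF S ω) ∂(bondLaw p) = Ex (fun _ => (p:ℝ)) S f := by
  classical
  have h1 : ∀ ω, f (FF S ω) =
      ∑ T ∈ S.powerset, Set.indicator {ω | FF S ω = T} (fun _ => f T) ω := by
    intro ω
    rw [Finset.sum_eq_single (FF S ω)]
    · rw [Set.indicator_of_mem]
      rfl
    · intro T _ hT
      rw [Set.indicator_of_notMem]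
      exact fun h => hT h.symm
    · intro h
      exact absurd (Finset.mem_powerset.mpr (Finset.filter_subset _ _)) h
  simp_rw [h1]
  rw [integral_finsetSum]
  · unfold Ex
    apply Finset.sum_congr rfl
    intro T hT
    rw [integral_indicator (meas_FF S T), setIntegral_const, law_eq p (Finset.mem_powerset.mp hT),
      smul_eq_mul]
  · intro T _
    exact (integrable_const _).indicator (meas_FF S T)

theorem meanK_eq (n : ℕ) {p : ℝ} (h0 : 0 ≤ p) (h1 : p ≤ 1) :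
    meanK n p = Ex (fun _ => p) (sqB n) (fun F => (KN n F : ℝ)) := by
  unfold meanK
  simp_rw [clusters_eq]
  rw [integral_FF (Set.projIcc 0 1 zero_le_one p) (sqB n) (fun F => (KN n F : ℝ)),
    Set.projIcc_of_mem zero_le_one (⟨h0, h1⟩ : p ∈ Set.Icc (0:ℝ) 1)]

end H12A
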