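import Pool.Agent.H31R3.Kes.Defs
import Pool.Agent.H31R3.Kes.Decay
import Pool.Agent.H973R3.NC.TS
import Pool.Agent.H973R3.NC.A4L
import Pool.Agent.H973R3.NC.DV
import Pool.Agent.H973R3.NC.CT
import Pool.Agent.H974R2.GammaInf

/-!
The upper half of the exponent `α` for bond percolation on `ℤ²`: definitions.

`fo e F`: the end points of `e` are joined by edges of `F` other than `e`. The derivative of the
expected number of clusters of a finite box in the parameter is `-∑_e P(¬ fo e)`. The second
derivative of `∑_e P(fo e)` is bounded by the sum over triples of the probabilities of the event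
`TD e g h` (the cluster number has a non-zero third difference at `e, g, h`).
-/

namespace H12A

open H974 H12S H973N Finset

/-- The end points of `e` are joined by edges of `F` other than `e`. -/
def fo (e : Edg) (F : Finset Edg) : Prop := Reach (↑(F.erase e) : Set Edg) (src e) (tgt e)

/-- The third difference of the number of clusters at `e, g, h` does not vanish. -/
def TD (e g h : Edg) (F : Finset Edg) : Prop := SD (fo e) g h F

/-- Infinite-volume probability of `fo`. -/
noncomputable def ho (q : ℝ) (b : Bool) : ℝ := ⨆ m : ℕ, PQ q (boxE m) (fo (e0 b))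

/-- Sum over the two directions. -/
noncomputable def hs (q : ℝ) : ℝ := ho q true + ho q false

/-- Four-arm probability at scale `2^k`, with the trivial bound for small `k`. -/
noncomputable def al (q : ℝ) (k : ℕ) : ℝ := if k < 8 then 2 else a4 q (2^(k-8))

/-- Local four-arm event at scale `2^k`, trivial for small `k`. -/
def Lc (k : ℕ) (e : Edg) (F : Set Edg) : Prop := k < 8 ∨ L4 (2^(k-8)) e F

/-- The three sums which bound the sum over the triples in a box of radius `R`. -/
noncomputable def TS3 (q : ℝ) (K R : ℕ) : ℝ :=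
  (R:ℝ)^6 * (al q (K - 6))^3 +
    (R:ℝ)^2 * (∑ k ∈ range K, ∑ l ∈ range K,
      if k ≤ l then (16:ℝ)^k * (al q k)^2 * al q l * (2:ℝ)^(l - k) else 0) +
    (R:ℝ)^3 * (∑ k ∈ range K, (8:ℝ)^k * (al q k)^2 * al q K)

/-- Edges of the `n × n` box of vertices `{0,…,n-1}²`. -/
noncomputable def sqB (n : ℕ) : Finset Edg := RE 0 ((n:ℤ) - 1) 0 ((n:ℤ) - 1)

/-- Vertices of the `n × n` box. -/
abbrev VB (n : ℕ) : Type := {v : ℤ × ℤ // (0 ≤ v.1 ∧ v.1 < n) ∧ (0 ≤ v.2 ∧ v.2 < n)}

/-- The graph of the open edges of the box. -/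
def GB (n : ℕ) (F : Finset Edg) : SimpleGraph (VB n) where
  Adj u v := u ≠ v ∧ Adj (↑(F ∩ sqB n) : Set Edg) u.1 v.1
  symm := ⟨fun _ _ h => ⟨h.1.symm, h.2.symm⟩⟩
  loopless := ⟨fun _ h => h.1 rfl⟩

/-- The number of clusters in the box. -/
noncomputable def KN (n : ℕ) (F : Finset Edg) : ℕ := Nat.card (GB n F).ConnectedComponent

/-- The number of clusters of a configuration in the `n × n` box. -/
noncomputable def clusters (n : ℕ) (ω : sqLattice.edgeSet → Bool) : ℕ :=
  Nat.card ((openGraph ω).induce
    {v : ℤ × ℤ | (0 ≤ v.1 ∧ v.1 < n) ∧ (0 ≤ v.2 ∧ v.2 < n)}).ConnectedComponent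

/-- Expected number of clusters in the `n × n` box at parameter `p`. -/
noncomputable def meanK (n : ℕ) (p : ℝ) : ℝ :=
  ∫ ω, (clusters n ω : ℝ) ∂(bondLaw (Set.projIcc 0 1 zero_le_one p))

/-- The density of clusters. -/
noncomputable def kappa (p : ℝ) : ℝ :=
  Filter.limUnder Filter.atTop (fun n : ℕ => meanK n p / (n:ℝ)^2)

end H12A
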