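import Pool.Agent.H12R3.A.Defs

/-! Statements (with `sorry`) of the project `h12a_tasks` (upper half of `α`). -/

namespace H12A

open H974 H12S H973N Finset

/-! ### A1 : symmetry of the triple event -/

theorem fo_mono {e : Edg} {F G : Finset Edg} (h : F ⊆ G) (hF : fo e F) : fo e G := sorry

theorem TD_ne {e g h : Edg} {F : Finset Edg} (T : TD e g h F) : e ≠ g ∧ e ≠ h := sorry

theorem TD_swap {e g h : Edg} {F : Finset Edg} (T : TD e g h F) : TD e h g F := sorry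

theorem TD_rot {e g h : Edg} (hgh : g ≠ h) {F : Finset Edg} (T : TD e g h F) : TD g h e F := sorry

/-- The three edges are joined by open paths which avoid them. -/
theorem TD_conn {e g h : Edg} (hgh : g ≠ h) {F : Finset Edg} (T : TD e g h F) :
    ∃ x ∈ ({src e, tgt e} : Set Vtx), ∃ y ∈ ({src g, tgt g} : Set Vtx),
      Reach (↑F \ {e, g, h} : Set Edg) x y := sorry

/-! ### A2 : local consequences -/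

theorem TD_L4 {e g h : Edg} {F : Finset Edg} {ρ : ℕ} (hρ : 1 ≤ ρ) (hgh : g ≠ h)
    (h1 : (ρ:ℤ) < dst e g) (h2 : (ρ:ℤ) < dst e h) (T : TD e g h F) : L4 ρ e ↑F := sorry

theorem TD_Bf {w u v : Edg} {F b : Finset Edg} (hu : u ∈ b) (hv : v ∈ b) (T : TD w u v F) :
    Bf (fo w) b F := sorry

/-! ### A3 : product bounds -/

theorem pr_Lc {q : ℝ} (h0 : 0 ≤ q) (h1 : q ≤ 1) {k : ℕ} {e : Edg} {S : Finset Edg}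
    (hS : 8 ≤ k → blk (bp e) (2^(k-8)) ⊆ S) : PQ q S (fun F => Lc k e ↑F) ≤ al q k := sorry

/-- Three mutually distant edges. -/
theorem pr_TD3 {q : ℝ} (h0 : 0 ≤ q) (h1 : q ≤ 1) {W : Finset Edg} {e g h : Edg} (hgh : g ≠ h)
    {k : ℕ} (d1 : 1 ≤ k → (2:ℤ)^k ≤ dst e g) (d2 : 1 ≤ k → (2:ℤ)^k ≤ dst e h)
    (d3 : 1 ≤ k → (2:ℤ)^k ≤ dst g h) (we : blk (bp e) (2^(k-8)) ⊆ W)
    (wg : blk (bp g) (2^(k-8)) ⊆ W) (wh : blk (bp h) (2^(k-8)) ⊆ W) :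
    PQ q W (TD e g h) ≤ (al q k)^3 := sorry

/-- A close pair `u, v` in a block and a distant edge `w`. -/
theorem pr_TDb {q : ℝ} (h0 : 0 ≤ q) (h1 : q ≤ 1) {W : Finset Edg} {k l : ℕ} (hl : k + 6 ≤ l)
    {t : ℤ × ℤ} {w u v : Edg} (hu1 : (2:ℤ)^k * t.1 ≤ u.1 ∧ u.1 < (2:ℤ)^k * t.1 + (2:ℤ)^k)
    (hu2 : (2:ℤ)^k * t.2 ≤ u.2.1 ∧ u.2.1 < (2:ℤ)^k * t.2 + (2:ℤ)^k) (hne : u ≠ v)
    (huv : dst u v < (2:ℤ)^(k+1)) (huv' : 1 ≤ k → (2:ℤ)^k ≤ dst u v)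
    (hwu : (2:ℤ)^l ≤ dst w u) (hwv : (2:ℤ)^l ≤ dst w v)
    (hb : blk (((2^k : ℕ) : ℤ) * t.1, ((2^k : ℕ) : ℤ) * t.2) (4 * 2^k) ⊆ W) :
    PQ q W (TD w u v) ≤ (al q k)^2 * PQ q W (fun F => Lc l w ↑F ∧
      Bf (fo w) (blk (((2^k : ℕ) : ℤ) * t.1, ((2^k : ℕ) : ℤ) * t.2) (4 * 2^k)) F) := sorry

/-! ### A4 : sum over blocks with a local event at a distant edge -/

theorem cond_tile {q κ : ℝ} {n : ℕ} (h : Win q κ n) {W : Finset Edg} {w : Edg} {k l : ℕ}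
    (hkl : k + 6 ≤ l) (hn : 8 * 2^k ≤ n) (hw : blk (bp w) (2^(l-8)) ⊆ W) (T : Finset (ℤ × ℤ))
    (hT : ∀ t ∈ T, blk (((2^k : ℕ) : ℤ) * t.1, ((2^k : ℕ) : ℤ) * t.2) (12 * 2^k) ⊆ W)
    (hd : ∀ t ∈ T, (2:ℤ)^l ≤ max |w.1 - (2:ℤ)^k * t.1| |w.2.1 - (2:ℤ)^k * t.2| + (2:ℤ)^k) :
    ∑ t ∈ T, PQ q W (fun F => Lc l w ↑F ∧
      Bf (fo w) (blk (((2^k : ℕ) : ℤ) * t.1, ((2^k : ℕ) : ℤ) * t.2) (4 * 2^k)) F) ≤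
      1250 * κ⁻¹ ^ 4 * al q l * Real.sqrt T.card := sorry

/-! ### A5 : the sum over all triples -/

/-- Reduction to the closest pair. -/
theorem close_pair {q : ℝ} (h0 : 0 ≤ q) (h1 : q ≤ 1) (W G : Finset Edg) :
    ∑ e ∈ G, ∑ g ∈ G, ∑ h ∈ G.erase g, PQ q W (TD e g h) ≤
      3 * ∑ w ∈ G, ∑ u ∈ G, ∑ v ∈ G.erase u,
        ind (dst u v ≤ dst w u ∧ dst u v ≤ dst w v) * PQ q W (TD w u v) := sorry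

/-- Comparable distances. -/
theorem sum_comp : ∃ C : ℝ, 0 < C ∧ ∀ q : ℝ, 0 ≤ q → q ≤ 1 → ∀ k R1 R2 : ℕ, 1 ≤ R1 →
    R1 + 2^k ≤ R2 →
    ∑ w ∈ boxE R1, ∑ u ∈ boxE R1, ∑ v ∈ (boxE R1).erase u,
      ind (dst u v < (2:ℤ)^(k+1) ∧ (1 ≤ k → (2:ℤ)^k ≤ dst u v) ∧ dst u v ≤ dst w u ∧
        dst u v ≤ dst w v ∧ (dst w u < (2:ℤ)^(k+7) ∨ dst w v < (2:ℤ)^(k+7))) *
        PQ q (boxE R2) (TD w u v) ≤ C * ((R1:ℝ)^2 * (16:ℝ)^k * (al q k)^3) := sorry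

/-- Blocks at distance between `2^l` and `2^(l+1)` of the distant edge. -/
theorem sum_annulus (κ : ℝ) (hκ : 0 < κ) : ∃ C : ℝ, 0 < C ∧ ∀ (q : ℝ) (n : ℕ), Win q κ n →
    ∀ k l R1 R2 : ℕ, k + 6 ≤ l → 2^l ≤ n → 1 ≤ R1 → R1 + 2^l ≤ R2 → ∀ w ∈ boxE R1,
    ∑ u ∈ boxE R1, ∑ v ∈ (boxE R1).erase u,
      ind (dst u v < (2:ℤ)^(k+1) ∧ (1 ≤ k → (2:ℤ)^k ≤ dst u v) ∧ (2:ℤ)^l ≤ dst w u ∧
        (2:ℤ)^l ≤ dst w v ∧ dst w u < (2:ℤ)^(l+2)) *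
        PQ q (boxE R2) (TD w u v) ≤ C * ((16:ℝ)^k * (al q k)^2 * al q l * (2:ℝ)^(l - k)) := sorry

/-- Blocks at distance at least `2^K` of the distant edge. -/
theorem sum_far (κ : ℝ) (hκ : 0 < κ) : ∃ C : ℝ, 0 < C ∧ ∀ (q : ℝ) (n : ℕ), Win q κ n →
    ∀ k K R1 R2 : ℕ, k + 6 ≤ K → 2^K ≤ n → 2^K ≤ R1 → R1 + 2^K ≤ R2 → ∀ w ∈ boxE R1,
    ∑ u ∈ boxE R1, ∑ v ∈ (boxE R1).erase u,
      ind (dst u v < (2:ℤ)^(k+1) ∧ (1 ≤ k → (2:ℤ)^k ≤ dst u v) ∧ (2:ℤ)^K ≤ dst w u ∧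
        (2:ℤ)^K ≤ dst w v) *
        PQ q (boxE R2) (TD w u v) ≤ C * ((8:ℝ)^k * (al q k)^2 * al q K * R1) := sorry

theorem triple_sum (κ : ℝ) (hκ : 0 < κ) : ∃ C : ℝ, 0 < C ∧ ∀ (q : ℝ) (n : ℕ), Win q κ n →
    ∀ K R1 R2 : ℕ, 2^K ≤ n → 2^K ≤ R1 → R1 + 2^K ≤ R2 →
    ∑ e ∈ boxE R1, ∑ g ∈ boxE R1, ∑ h ∈ (boxE R1).erase g, PQ q (boxE R2) (TD e g h) ≤
      C * TS3 q K R1 := sorry

theorem TS3_bound {ε : ℝ} (h0 : 0 < ε) (h1 : ε ≤ 1/100) : ∃ C : ℝ, 0 < C ∧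
    ∀ (q A : ℝ) (K R : ℕ), 0 ≤ q → q ≤ 1 → 1 ≤ A → 2^K ≤ R →
    (∀ m : ℕ, 1 ≤ m → m ≤ 2^K → a4 q m ≤ A * (m:ℝ) ^ (-(5/4 : ℝ) + ε)) →
    TS3 q K R ≤ C * A^3 * ((R:ℝ)^6 * ((2:ℝ)^K) ^ (-(15/4 : ℝ) + 3 * ε)) := sorry

/-! ### A6 : distant edges -/

theorem pr_TD_arm {q : ℝ} (h0 : 0 ≤ q) (h1 : q ≤ 1) {W : Finset Edg} {e g h : Edg} (hgh : g ≠ h)
    {r : ℕ} (hr : (r:ℤ) < dst e g) : PQ q W (TD e g h) ≤ 4 * arm q r := sorry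

/-! ### A7 : second derivative -/

theorem Phi_deriv2 (W core : Finset Edg) : ∃ Φ1 Φ2 : ℝ → ℝ,
    (∀ q, HasDerivAt (fun q : ℝ => ∑ e ∈ core, PQ q W (fo e)) (Φ1 q) q) ∧
    (∀ q, HasDerivAt Φ1 (Φ2 q) q) ∧ ∀ q, 0 ≤ q → q ≤ 1 →
      |Φ2 q| ≤ ∑ e ∈ core, ∑ g ∈ W, ∑ h ∈ W.erase g, PQ q W (TD e g h) := sorry

theorem slope_diff {Φ Φ1 Φ2 : ℝ → ℝ} (h1 : ∀ q, HasDerivAt Φ (Φ1 q) q)
    (h2 : ∀ q, HasDerivAt Φ1 (Φ2 q) q) {a b c M : ℝ} (hab : a < b) (hbc : b < c)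
    (hM : ∀ q, a ≤ q → q ≤ c → |Φ2 q| ≤ M) :
    |(Φ c - Φ b) / (c - b) - (Φ b - Φ a) / (b - a)| ≤ M * (c - a) := sorry

/-! ### A8 : the near-critical estimate below `1/2` -/

theorem hs_slope
    (near : ∀ ε : ℝ, 0 < ε → ∃ κ B : ℝ, 0 < κ ∧ 0 < B ∧ ∀ n : ℕ, 1 ≤ n → ∀ q : ℝ,
      |q - 1/2| ≤ κ * (n:ℝ)^(-(3/4) - ε) → H12S.Win q κ n ∧
        ∀ m : ℕ, 1 ≤ m → m ≤ n → H12S.a4 q m ≤ B * (m:ℝ)^(-(5/4) + ε))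
    (far : ∀ ε : ℝ, 0 < ε → ∃ N0 : ℕ, ∀ N : ℕ, N0 ≤ N → ∀ p : ℝ,
      1/2 + (N:ℝ)^(-(3/4) + ε) ≤ p → p ≤ 1 → eps p N ≤ 1/100) :
    ∀ ε : ℝ, 0 < ε → ∃ C t0 : ℝ, 0 < C ∧ 0 < t0 ∧ ∀ t : ℝ, 0 < t → t ≤ t0 →
      |(hs (1/2 - t) - hs (1/2 - 2 * t)) / t - (hs (1/2 - 2 * t) - hs (1/2 - 4 * t)) / (2 * t)| ≤
        C * t ^ ((2/3 : ℝ) - ε) := sorry

/-! ### B1 : infinite volume -/

theorem ho_err {q : ℝ} (h0 : 0 ≤ q) (h1 : q ≤ 1) {W : Finset Edg} {e : Edg} {m : ℕ} (hm : 1 ≤ m)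
    (hW : blk (bp e) m ⊆ W) : PQ q W (fo e) ≤ ho q e.2.2 ∧
      ho q e.2.2 ≤ PQ q W (fo e) + PQ q (blk (bp e) m) (fun F => L4 m e ↑F) := sorry

theorem L4_arm {q : ℝ} (h0 : 0 ≤ q) (h1 : q ≤ 1) {e : Edg} {m : ℕ} (hm : 1 ≤ m) :
    PQ q (blk (bp e) m) (fun F => L4 m e ↑F) ≤ arm q m := sorry

theorem L4_darm {q : ℝ} (h0 : 0 ≤ q) (h1 : q ≤ 1) {e : Edg} {m : ℕ} (hm : 4 ≤ m) :
    PQ q (blk (bp e) m) (fun F => L4 m e ↑F) ≤ 2 * arm (1 - q) (m / 4) := sorry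

theorem arm_half_zero : Filter.Tendsto (fun m : ℕ => arm (1/2) m) Filter.atTop (nhds 0) := sorry

theorem L4_unif : ∃ τ : ℕ → ℝ, Filter.Tendsto τ Filter.atTop (nhds 0) ∧ ∀ q : ℝ, 0 ≤ q → q ≤ 1 →
    ∀ (e : Edg) (m : ℕ), 1 ≤ m → PQ q (blk (bp e) m) (fun F => L4 m e ↑F) ≤ τ m := sorry

theorem ho_cont (b : Bool) : ContinuousOn (fun q => ho q b) (Set.Icc 0 1) := sorry

/-! ### B2, B3 : duality -/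

theorem dual_fo_1 {a b c d : ℤ} {F : Finset Edg} (hF : F ⊆ RE a b c d) {e : Edg}
    (he : e ∈ RE a b c d)
    (hd : DReach ((↑(RE a b c d) \ ↑F) \ {e} : Set Edg) (dsrc e) (dtgt e)) : ¬ fo e F := sorry

theorem dual_fo_2 {a b c d : ℤ} {F : Finset Edg} (hF : F ⊆ RE a b c d) {e : Edg}
    (he : e ∈ RE a b c d) (hn : ¬ fo e F) (hA : ¬ A4 a b c d e ↑F) :
    DReach ((↑(RE a b c d) \ ↑F) \ {e} : Set Edg) (dsrc e) (dtgt e) := sorry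

theorem ho_dual {q : ℝ} (h0 : 0 ≤ q) (h1 : q ≤ 1) (b : Bool) : ho q b + ho (1 - q) (!b) = 1 :=
  sorry

theorem hs_dual {q : ℝ} (h0 : 0 ≤ q) (h1 : q ≤ 1) : hs q + hs (1 - q) = 2 := sorry

/-! ### C : the number of clusters -/

theorem KN_empty (n : ℕ) : KN n ∅ = n^2 := sorry

theorem KN_insert {n : ℕ} {F : Finset Edg} {e : Edg} (he : e ∈ sqB n) (heF : e ∉ F) :
    (KN n (insert e F) : ℝ) = KN n F - ind (¬ fo e (F ∩ sqB n)) := sorry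

theorem KN_deriv (n : ℕ) (q : ℝ) :
    HasDerivAt (fun q : ℝ => Ex (fun _ => q) (sqB n) (fun F => (KN n F : ℝ)))
      (-∑ e ∈ sqB n, PQ q (sqB n) (fun F => ¬ fo e F)) q := sorry

/-- Average of the finite-volume derivative. -/
theorem avg_unif : ∃ τ : ℕ → ℝ, Filter.Tendsto τ Filter.atTop (nhds 0) ∧ ∀ q : ℝ, 0 ≤ q → q ≤ 1 →
    ∀ n : ℕ, 1 ≤ n →
      |(∑ e ∈ sqB n, PQ q (sqB n) (fun F => ¬ fo e F)) / (n:ℝ)^2 - (2 - hs q)| ≤ τ n := sorry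

theorem meanK_eq (n : ℕ) {p : ℝ} (h0 : 0 ≤ p) (h1 : p ≤ 1) :
    meanK n p = Ex (fun _ => p) (sqB n) (fun F => (KN n F : ℝ)) := sorry

theorem kappa_lim {p : ℝ} (h0 : 0 ≤ p) (h1 : p ≤ 1) :
    Filter.Tendsto (fun n : ℕ => meanK n p / (n:ℝ)^2) Filter.atTop (nhds (kappa p)) := sorry

theorem kappa_deriv {p : ℝ} (h0 : 0 < p) (h1 : p < 1) : HasDerivAt kappa (hs p - 2) p := sorry

/-! ### D : conclusion -/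

/-- Real analysis. -/
theorem expand {h : ℝ → ℝ} (hc : ContinuousOn h (Set.Icc 0 1))
    (hd : ∀ q, 0 ≤ q → q ≤ 1 → h q + h (1 - q) = 2)
    (hs : ∀ ε : ℝ, 0 < ε → ∃ C t0 : ℝ, 0 < C ∧ 0 < t0 ∧ ∀ t : ℝ, 0 < t → t ≤ t0 →
      |(h (1/2 - t) - h (1/2 - 2 * t)) / t - (h (1/2 - 2 * t) - h (1/2 - 4 * t)) / (2 * t)| ≤
        C * t ^ ((2/3 : ℝ) - ε)) :
    ∃ D : ℝ, ∀ ε : ℝ, 0 < ε → ∃ C : ℝ, ∀ q : ℝ, 0 ≤ q → q ≤ 1 →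
      |h q - 1 - D * (q - 1/2)| ≤ C * |q - 1/2| ^ ((5/3 : ℝ) - ε) := sorry

theorem alpha_of (hs_slope' : ∀ ε : ℝ, 0 < ε → ∃ C t0 : ℝ, 0 < C ∧ 0 < t0 ∧ ∀ t : ℝ, 0 < t →
      t ≤ t0 →
      |(hs (1/2 - t) - hs (1/2 - 2 * t)) / t - (hs (1/2 - 2 * t) - hs (1/2 - 4 * t)) / (2 * t)| ≤
        C * t ^ ((2/3 : ℝ) - ε)) :
    (∀ p : ℝ, 0 ≤ p → p ≤ 1 →
      Filter.Tendsto (fun n : ℕ => meanK n p / (n:ℝ)^2) Filter.atTop (nhds (kappa p))) ∧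
    (∀ p : ℝ, 0 < p → p < 1 → DifferentiableAt ℝ kappa p) ∧
    DifferentiableAt ℝ (deriv kappa) pcrit ∧
    ∀ ε : ℝ, 0 < ε → ∃ C : ℝ, ∀ p : ℝ, 0 ≤ p → p ≤ 1 →
      |kappa p - kappa pcrit - deriv kappa pcrit * (p - pcrit) -
        1/2 * deriv (deriv kappa) pcrit * (p - pcrit)^2| ≤ C * |p - pcrit| ^ ((8/3 : ℝ) - ε) :=
  sorry

end H12A
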